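import Pool.Agent.N162.CV.Pl

/-!
# CV/A3: number of points with a relation on an irreducible plane curve
-/

set_option autoImplicit false

open MvPolynomial

namespace Pool.Agent.N966.CV

open Pool.Agent.N162.CV

/-- evaluation at the points of `S` -/
noncomputable def ev {Ω ι : Type} [Field Ω] (S : Finset ι) (p : ι → Fin 2 → Ω) (k : ℕ) :
    restrictTotalDegree (Fin 2) Ω k →ₗ[Ω] (S → Ω) where
  toFun P i := eval (p i) (P : MvPolynomial (Fin 2) Ω)
  map_add' P Q := by
    ext i
    simp
  map_smul' c P := by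
    ext i
    simp [smul_eval]

lemma mem_ker_ev {Ω ι : Type} [Field Ω] (S : Finset ι) (p : ι → Fin 2 → Ω) (k : ℕ)
    (P : restrictTotalDegree (Fin 2) Ω k) : P ∈ LinearMap.ker (ev S p k) ↔
    ∀ i ∈ S, eval (p i) (P : MvPolynomial (Fin 2) Ω) = 0 := by
  rw [LinearMap.mem_ker]
  constructor
  · intro h i hi
    exact congrFun h ⟨i, hi⟩
  · intro h
    ext i
    exact h i.1 i.2

/-- if all polynomials of degree `≤ k` vanishing at the points are multiples of `G` then the image
of the evaluation is large -/
lemma rank_ev (hd : StDIM) {Ω ι : Type} [Field Ω] (S : Finset ι) (p : ι → Fin 2 → Ω) (k : ℕ)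
    (G : MvPolynomial (Fin 2) Ω) (hG : G ≠ 0) (hgk : G.totalDegree ≤ k)
    (h : ∀ P : MvPolynomial (Fin 2) Ω, P.totalDegree ≤ k → (∀ i ∈ S, eval (p i) P = 0) → G ∣ P) :
    (k + 1) * (k + 2) ≤ 2 * Module.finrank Ω (LinearMap.range (ev S p k)) +
      (k - G.totalDegree + 1) * (k - G.totalDegree + 2) := by
  obtain ⟨h1, h2⟩ := hd Ω k
  obtain ⟨h3, h4⟩ := hd Ω (k - G.totalDegree)
  have h5 := LinearMap.finrank_range_add_finrank_ker (ev S p k)
  -- the multiples of `G`
  have h6 : Module.finrank Ω (LinearMap.ker (ev S p k)) ≤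
      Module.finrank Ω (restrictTotalDegree (Fin 2) Ω (k - G.totalDegree)) := by
    let f : restrictTotalDegree (Fin 2) Ω (k - G.totalDegree) →ₗ[Ω]
        restrictTotalDegree (Fin 2) Ω k :=
      (LinearMap.mulLeft Ω G).restrict (by
        intro Q hQ
        rw [mem_restrictTotalDegree] at hQ ⊢
        change (G * Q).totalDegree ≤ k
        have := totalDegree_mul G Q
        omega)
    have hle : LinearMap.ker (ev S p k) ≤ LinearMap.range f := by
      intro P hP
      rw [mem_ker_ev] at hP
      have hPk := (mem_restrictTotalDegree (Fin 2) k (P : MvPolynomial (Fin 2) Ω)).1 P.2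
      obtain ⟨Q, hQ⟩ := h P hPk hP
      by_cases hQ0 : Q = 0
      · refine ⟨0, ?_⟩
        rw [map_zero]
        apply Subtype.ext
        rw [hQ, hQ0, mul_zero]
        rfl
      · refine ⟨⟨Q, ?_⟩, ?_⟩
        · rw [mem_restrictTotalDegree]
          rw [hQ, totalDegree_mul_of_isDomain hG hQ0] at hPk
          omega
        · apply Subtype.ext
          exact hQ.symm
    exact (Submodule.finrank_mono hle).trans (LinearMap.finrank_range_le f)
  rw [← h2, ← h4]
  omega

/-- subspaces orthogonal for the form `∑ lam_i f_i h_i` -/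
lemma orth {Ω ι : Type} [Field Ω] (S : Finset ι) (lam : ι → Ω) (hlam : ∀ i ∈ S, lam i ≠ 0)
    (W1 W2 : Submodule Ω (S → Ω))
    (h : ∀ f ∈ W1, ∀ g ∈ W2, ∑ i : S, lam i.1 * (f i * g i) = 0) :
    Module.finrank Ω W1 + Module.finrank Ω W2 ≤ S.card := by
  classical
  let L : (S → Ω) →ₗ[Ω] Module.Dual Ω (S → Ω) :=
    LinearMap.mk₂ Ω (fun g f => ∑ i : S, lam i.1 * (f i * g i))
      (by
        intro a b c
        rw [← Finset.sum_add_distrib]
        exact Finset.sum_congr rfl fun i _ => by rw [Pi.add_apply]; ring)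
      (by
        intro c a b
        rw [smul_eq_mul, Finset.mul_sum]
        exact Finset.sum_congr rfl fun i _ => by rw [Pi.smul_apply, smul_eq_mul]; ring)
      (by
        intro a b c
        rw [← Finset.sum_add_distrib]
        exact Finset.sum_congr rfl fun i _ => by rw [Pi.add_apply]; ring)
      (by
        intro c a b
        rw [smul_eq_mul, Finset.mul_sum]
        exact Finset.sum_congr rfl fun i _ => by rw [Pi.smul_apply, smul_eq_mul]; ring)
  have hL : Function.Injective L := by
    rw [← LinearMap.ker_eq_bot, LinearMap.ker_eq_bot']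
    intro g hg
    ext i
    have h1 : L g (Pi.single i 1) = 0 := by rw [hg]; rfl
    have h2 : L g (Pi.single i 1) = ∑ j : S, lam j.1 * ((Pi.single i 1 : S → Ω) j * g j) := rfl
    rw [h2, Finset.sum_eq_single i] at h1
    · rw [Pi.single_eq_same, one_mul] at h1
      exact (mul_eq_zero.1 h1).resolve_left (hlam i.1 i.2)
    · intro j _ hj
      rw [Pi.single_eq_of_ne hj, zero_mul, mul_zero]
    · intro hi
      exact absurd (Finset.mem_univ i) hi
  have hle : W2.map L ≤ W1.dualAnnihilator := by
    rintro φ ⟨g, hg, rfl⟩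
    rw [Submodule.mem_dualAnnihilator]
    intro f hf
    exact h f hf g hg
  have h1 := Submodule.finrank_mono hle
  rw [← (Submodule.equivMapOfInjective L hL W2).finrank_eq] at h1
  have h2 := Subspace.finrank_add_finrank_dualAnnihilator_eq W1
  rw [Module.finrank_pi, Fintype.card_coe] at h2
  omega

theorem a3_ (h : StA1) (hd : StDIM) : StA3 := by
  intro Ω _ _ ι S p lam m G hS hinj hlam hrel hirr hG hgm
  have hG0 : G ≠ 0 := hirr.ne_zero
  have key : ∀ P : MvPolynomial (Fin 2) Ω, P.totalDegree ≤ m + 2 - G.totalDegree →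
      (∀ i ∈ S, eval (p i) P = 0) → G ∣ P := by
    intro P hP h0
    by_contra hnd
    have hP0 : P ≠ 0 := by
      rintro rfl
      exact hnd (dvd_zero G)
    have hrp : IsRelPrime G P := (hirr.isRelPrime_iff_not_dvd).2 hnd
    have h1 := h Ω ι S p lam m G P hS hinj hlam hrel hG0 hP0 hrp (fun i hi => ⟨hG i hi, h0 i hi⟩)
    omega
  have h1 := rank_ev hd S p (m + 2 - G.totalDegree) G hG0 (by omega) key
  obtain ⟨k, hk⟩ : ∃ k, m + 2 = 2 * G.totalDegree + k := ⟨m + 2 - 2 * G.totalDegree, by omega⟩
  generalize hg : G.totalDegree = g at *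
  have e1 : m + 2 - g = g + k := by omega
  rw [e1] at h1 key
  have e2 : g + k - g = k := by omega
  rw [e2] at h1
  rcases Nat.lt_or_ge g 2 with hg2 | hg2
  · -- `g ≤ 1`
    have h2 : Module.finrank Ω (LinearMap.range (ev S p (g + k))) ≤ S.card := by
      have := Submodule.finrank_le (LinearMap.range (ev S p (g + k)))
      rwa [Module.finrank_pi, Fintype.card_coe] at this
    have hg01 : g = 0 ∨ g = 1 := by omega
    rcases hg01 with rfl | rfl
    · simp
    · have hm : m = k := by omega
      subst hm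
      nlinarith
  · obtain ⟨g', rfl⟩ : ∃ g', g = g' + 2 := ⟨g - 2, by omega⟩
    -- the polynomials of degree `≤ g - 2`
    have h3 : LinearMap.ker (ev S p g') = ⊥ := by
      rw [eq_bot_iff]
      intro P hP
      rw [mem_ker_ev] at hP
      have hPk := (mem_restrictTotalDegree (Fin 2) g' (P : MvPolynomial (Fin 2) Ω)).1 P.2
      obtain ⟨Q, hQ⟩ := key P (by omega) hP
      rw [Submodule.mem_bot]
      apply Subtype.ext
      by_contra hP0
      have hQ0 : Q ≠ 0 := by
        rintro rfl
        rw [mul_zero] at hQ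
        exact hP0 hQ
      rw [hQ, totalDegree_mul_of_isDomain hG0 hQ0, hg] at hPk
      omega
    have h4 := LinearMap.finrank_range_add_finrank_ker (ev S p g')
    rw [h3, finrank_bot, add_zero] at h4
    have h5 := orth S lam hlam (LinearMap.range (ev S p (g' + 2 + k)))
      (LinearMap.range (ev S p g')) (by
        rintro _ ⟨P, rfl⟩ _ ⟨Q, rfl⟩
        have hPk := (mem_restrictTotalDegree (Fin 2) _ (P : MvPolynomial (Fin 2) Ω)).1 P.2
        have hQk := (mem_restrictTotalDegree (Fin 2) _ (Q : MvPolynomial (Fin 2) Ω)).1 Q.2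
        have h6 := hrel ((P : MvPolynomial (Fin 2) Ω) * Q) (by
          have := totalDegree_mul (P : MvPolynomial (Fin 2) Ω) Q
          omega)
        rw [← Finset.sum_coe_sort] at h6
        rw [← h6]
        refine Finset.sum_congr rfl fun i _ => ?_
        rw [map_mul]
        rfl)
    have h6 := (hd Ω g').2
    have hm : m = g' + g' + k + 2 := by omega
    subst hm
    rw [h4] at h5
    nlinarith

end Pool.Agent.N966.CV

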