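import Pool.Agent.N162.CV.Pl

/-!
# CV/DIM: dimension of the polynomials of degree at most `k` in two variables
-/

set_option autoImplicit false

open MvPolynomial

namespace Pool.Agent.N966.CV

open Pool.Agent.N162.CV

lemma sum_two (n : Fin 2 →₀ ℕ) : (n.sum fun _ e => e) = n 0 + n 1 := by
  rw [Finsupp.sum_fintype _ _ (fun _ => rfl), Fin.sum_univ_two]

lemma sig_eq {k a b i : ℕ} (h : a = b) (ha : a < k + 1) (hb : b < k + 1) (hia : i < a + 1)
    (hib : i < b + 1) : (⟨⟨a, ha⟩, ⟨i, hia⟩⟩ : Σ j : Fin (k + 1), Fin (j.1 + 1)) =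
      ⟨⟨b, hb⟩, ⟨i, hib⟩⟩ := by
  subst h
  rfl

/-- the exponents of degree at most `k` -/
noncomputable def expEquiv (k : ℕ) :
    {n : Fin 2 →₀ ℕ | (n.sum fun _ e => e) ≤ k} ≃ Σ j : Fin (k + 1), Fin (j.1 + 1) where
  toFun n := ⟨⟨n.1 0 + n.1 1, by
    have h : (n.1.sum fun _ e => e) ≤ k := n.2
    rw [sum_two] at h
    omega⟩, ⟨n.1 0, by simp only []; omega⟩⟩
  invFun x := ⟨Finsupp.equivFunOnFinite.symm ![x.2.1, x.1.1 - x.2.1], by
    change ((Finsupp.equivFunOnFinite.symm ![x.2.1, x.1.1 - x.2.1]).sum fun _ e => e) ≤ k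
    rw [sum_two]
    have h1 := x.1.2
    have h2 := x.2.2
    simp only [Finsupp.equivFunOnFinite_symm_apply_apply, Matrix.cons_val_zero,
      Matrix.cons_val_one]
    omega⟩
  left_inv n := by
    apply Subtype.ext
    ext i
    fin_cases i
    · simp
    · simp
  right_inv x := by
    obtain ⟨⟨j, hj⟩, ⟨i, hi⟩⟩ := x
    have h2 : i < j + 1 := hi
    have h1 : i + (j - i) = j := by omega
    exact sig_eq (i := i) h1 _ _ _ _

theorem dim_ : StDIM := by
  intro Ω _ k
  refine ⟨inferInstance, ?_⟩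
  have h : Module.finrank Ω (restrictTotalDegree (Fin 2) Ω k) =
      Nat.card {n : Fin 2 →₀ ℕ | (n.sum fun _ e => e) ≤ k} :=
    Module.finrank_eq_nat_card_basis
      (basisRestrictSupport Ω {n : Fin 2 →₀ ℕ | (n.sum fun _ e => e) ≤ k})
  rw [h, Nat.card_congr (expEquiv k), Nat.card_eq_fintype_card, Fintype.card_sigma]
  simp only [Fintype.card_fin]
  rw [Fin.sum_univ_eq_sum_range (fun j => j + 1) (k + 1)]
  clear h
  induction k with
  | zero => rfl
  | succ k ih =>
    rw [Finset.sum_range_succ, mul_add, ih]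
    ring

end Pool.Agent.N966.CV

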