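import Pool.Agent.N753.DR.Stm2
import Pool.Agent.N262.DR.Places

/-!
# CV/PLACESB: the values are rarely small at a given place
-/

set_option autoImplicit false
set_option linter.unusedSectionVars false

namespace Pool.Agent.N966.CV.PlacesB

open NumberField IsDedekindDomain Module Polynomial Pool.Agent.N753.DR Pool.Agent.N262.DR

section box

variable {K : Type} [Field K] [NumberField K]

/-- averaging over the coordinate `i0` -/
theorem averaging {r B A : ℕ} (i0 : Fin r) {S : Set (Fin r → 𝓞 K)} (hS : S ⊆ Bx K r B)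
    (hA : ∀ Q : Fin r → 𝓞 K, ∀ T : Finset ℕ,
      (∀ m ∈ T, m < B ∧ (Q + Pi.single i0 (m : 𝓞 K)) ∈ S) → T.card ≤ A) :
    S.ncard * B ≤ A * (Bx K r ((1 + sz (1 : 𝓞 K)) * B)).ncard := by
  classical
  have hSf : S.Finite := (Bx_finite _ _).subset hS
  have hBf := Bx_finite (K := K) r ((1 + sz (1 : 𝓞 K)) * B)
  rw [Set.ncard_eq_toFinset_card S hSf, Set.ncard_eq_toFinset_card _ hBf]
  have hr : B = (Finset.range B).card := (Finset.card_range B).symm
  have h1 : hSf.toFinset.card * B = (hSf.toFinset ×ˢ Finset.range B).card := by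
    rw [Finset.card_product, Finset.card_range]
  rw [h1]
  refine Finset.card_le_mul_card_image_of_maps_to
    (f := fun p : (Fin r → 𝓞 K) × ℕ => p.1 - Pi.single i0 (p.2 : 𝓞 K)) ?_ A ?_
  · rintro ⟨c, m⟩ hcm
    rw [Finset.mem_product, Set.Finite.mem_toFinset, Finset.mem_range] at hcm
    rw [Set.Finite.mem_toFinset]
    intro j
    have hj := hS hcm.1 j
    refine (sz_sub _ _).trans ?_
    have h3 : sz ((Pi.single i0 (m : 𝓞 K) : Fin r → 𝓞 K) j) ≤ m * sz (1 : 𝓞 K) := by
      by_cases h0 : j = i0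
      · subst h0
        rw [Pi.single_eq_same]
        exact sz_nat m
      · rw [Pi.single_eq_of_ne h0]
        have : sz (0 : 𝓞 K) = 0 := by
          apply Nat.eq_zero_of_le_zero
          rw [sz_le_iff]
          intro i; simp
        rw [this]; exact Nat.zero_le _
    have h4 : m * sz (1 : 𝓞 K) ≤ B * sz (1 : 𝓞 K) := Nat.mul_le_mul_right _ hcm.2.le
    calc sz (c j) + sz ((Pi.single i0 (m : 𝓞 K) : Fin r → 𝓞 K) j)
        ≤ B + B * sz (1 : 𝓞 K) := Nat.add_le_add hj (h3.trans h4)
      _ = _ := by ring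
  · intro Q _
    let P := (hSf.toFinset ×ˢ Finset.range B).filter
      (fun p : (Fin r → 𝓞 K) × ℕ => p.1 - Pi.single i0 (p.2 : 𝓞 K) = Q)
    have h2 : P.card = (P.image Prod.snd).card := by
      symm
      apply Finset.card_image_of_injOn
      rintro ⟨c, m⟩ h ⟨c', m'⟩ h' hmm
      rw [Finset.mem_coe, Finset.mem_filter] at h h'
      simp only at hmm
      subst hmm
      have := h.2.trans h'.2.symm
      simp only at this
      rw [sub_left_inj] at this
      rw [this]
    show P.card ≤ A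
    rw [h2]
    apply hA Q
    intro m hm
    rw [Finset.mem_image] at hm
    obtain ⟨⟨c, m'⟩, hc, rfl⟩ := hm
    rw [Finset.mem_filter, Finset.mem_product, Set.Finite.mem_toFinset, Finset.mem_range] at hc
    refine ⟨hc.1.2, ?_⟩
    have : Q + Pi.single i0 (m' : 𝓞 K) = c := by rw [← hc.2]; simp
    simp only
    rw [this]
    exact hc.1.1

/-- the conclusion of the averaging: at most `A₀ * B ^ (1 - ν)` values of the coordinate
in each class -/
theorem average_bound {r : ℕ} (i0 : Fin r) {ν A₀ : ℝ} (hA0 : 0 ≤ A₀)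
    (S : ℕ → Set (Fin r → 𝓞 K)) (hS : ∀ B, S B ⊆ Bx K r B)
    (hA : ∀ B : ℕ, 1 ≤ B → ∀ Q : Fin r → 𝓞 K, ∀ T : Finset ℕ,
      (∀ m ∈ T, m < B ∧ (Q + Pi.single i0 (m : 𝓞 K)) ∈ S B) →
        (T.card : ℝ) ≤ A₀ * (B : ℝ) ^ (1 - ν)) :
    ∃ C : ℝ, ∀ B : ℕ, 1 ≤ B → ((S B).ncard : ℝ) ≤
      C * (B : ℝ) ^ ((finrank ℚ K : ℝ) * r - ν) := by
  refine ⟨A₀ * (2 * (1 + sz (1 : 𝓞 K)) + 1 : ℝ) ^ (finrank ℚ K * r), fun B hB => ?_⟩
  have hB0 : (0 : ℝ) < B := by exact_mod_cast hB
  have hB1 : (1 : ℝ) ≤ B := by exact_mod_cast hB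
  set A : ℕ := ⌊A₀ * (B : ℝ) ^ (1 - ν)⌋₊ with hAdef
  have h1 := averaging i0 (hS B) (A := A) (fun Q T hT => Nat.le_floor (hA B hB Q T hT))
  have h2 : (A : ℝ) ≤ A₀ * (B : ℝ) ^ (1 - ν) := Nat.floor_le (by positivity)
  have h3 := Bx_card (K := K) r ((1 + sz (1 : 𝓞 K)) * B)
  have h4 : ((S B).ncard : ℝ) * B ≤ (A₀ * (B : ℝ) ^ (1 - ν)) *
      ((2 * (1 + sz (1 : 𝓞 K)) + 1 : ℝ) ^ (finrank ℚ K * r) *
        (B : ℝ) ^ (finrank ℚ K * r)) := by
    calc ((S B).ncard : ℝ) * B ≤ (A : ℝ) *
          ((Bx K r ((1 + sz (1 : 𝓞 K)) * B)).ncard : ℝ) := by exact_mod_cast h1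
      _ ≤ (A₀ * (B : ℝ) ^ (1 - ν)) *
          ((2 * ((1 + sz (1 : 𝓞 K)) * B) + 1 : ℕ) ^ (finrank ℚ K * r) : ℕ) := by
          apply mul_le_mul h2 (by exact_mod_cast h3) (by positivity) (by positivity)
      _ ≤ _ := by
          apply mul_le_mul_of_nonneg_left _ (by positivity)
          rw [← mul_pow]
          push_cast
          apply pow_le_pow_left₀ (by positivity)
          nlinarith
  have h5 : (B : ℝ) ^ ((finrank ℚ K : ℝ) * r - ν) * B =
      (B : ℝ) ^ (1 - ν) * (B : ℝ) ^ (finrank ℚ K * r) := by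
    rw [← Real.rpow_natCast (B : ℝ) (finrank ℚ K * r), ← Real.rpow_add hB0]
    nth_rewrite 2 [← Real.rpow_one (B : ℝ)]
    rw [← Real.rpow_add hB0]
    congr 1
    push_cast
    ring
  have h6 : ((S B).ncard : ℝ) * B ≤
      (A₀ * (2 * (1 + sz (1 : 𝓞 K)) + 1 : ℝ) ^ (finrank ℚ K * r) *
      (B : ℝ) ^ ((finrank ℚ K : ℝ) * r - ν)) * B := by
    refine h4.trans (le_of_eq ?_)
    rw [mul_assoc (A₀ * _), h5]
    ring
  exact le_of_mul_le_mul_right h6 hB0

end box

section

variable {K L : Type} [Field K] [NumberField K] [Field L] [NumberField L] [Algebra K L]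

theorem evB_single {r : ℕ} (β : Fin r → 𝓞 L) (i0 : Fin r) (Q : Fin r → 𝓞 K) (m : ℕ) :
    evB K β (Q + Pi.single i0 (m : 𝓞 K)) = evB K β Q + (m : 𝓞 L) * β i0 := by
  rw [map_add]
  congr 1
  change (∑ i, algebraMap (𝓞 K) (𝓞 L) ((Pi.single i0 (m : 𝓞 K) : Fin r → 𝓞 K) i) * β i) = _
  rw [Finset.sum_eq_single i0]
  · rw [Pi.single_eq_same, map_natCast]
  · intro i _ hi
    rw [Pi.single_eq_of_ne hi, map_zero, zero_mul]
  · intro h
    exact absurd (Finset.mem_univ _) h

end

theorem t : StmPlacesB := by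
  intro K L _ _ _ _ _ r β i0 hβ κ hκ
  constructor
  · intro σ
    have hb : 0 < ‖σ (β i0 : L)‖ := by
      rw [norm_pos_iff]
      intro h
      apply hβ
      have h1 : (β i0 : L) = 0 := (map_eq_zero σ).1 h
      exact RingOfIntegers.coe_eq_zero_iff.1 h1
    set b : ℝ := ‖σ (β i0 : L)‖ with hbdef
    obtain ⟨C, hC⟩ := average_bound (K := K) i0 (ν := min κ 1) (A₀ := 2 / b + 1) (by positivity)
      (fun B => {c ∈ Bx K r B | ‖σ (evB K β c : L)‖ ≤ (B : ℝ) ^ (1 - κ)})
      (fun B c hc => hc.1) (by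
        intro B hB Q T hT
        have hB1 : (1 : ℝ) ≤ B := by exact_mod_cast hB
        have h1 : ∀ m ∈ T, |(σ (evB K β Q : L) / σ (β i0 : L)).re + (m : ℝ)| ≤
            (B : ℝ) ^ (1 - κ) / b := by
          intro m hm
          have h2 := (hT m hm).2.2
          rw [evB_single] at h2
          have h3 : σ ((evB K β Q + (m : 𝓞 L) * β i0 : 𝓞 L) : L) =
              (σ (evB K β Q : L) / σ (β i0 : L) + (m : ℝ)) * σ (β i0 : L) := by
            have h0 : σ (β i0 : L) ≠ 0 := norm_pos_iff.1 hb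
            push_cast
            rw [add_mul, div_mul_cancel₀ _ h0, map_add, map_mul, map_natCast]
          rw [h3, norm_mul, ← hbdef] at h2
          have h4 : ‖σ (evB K β Q : L) / σ (β i0 : L) + (m : ℝ)‖ ≤ (B : ℝ) ^ (1 - κ) / b := by
            rw [le_div_iff₀ hb]
            exact h2
          have h5 := (Complex.abs_re_le_norm _).trans h4
          rwa [Complex.add_re, Complex.ofReal_re] at h5
        have h2 := card_interval (by positivity) h1
        have h3 : (B : ℝ) ^ (1 - κ) ≤ (B : ℝ) ^ (1 - min κ 1) :=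
          Real.rpow_le_rpow_of_exponent_le hB1 (by linarith [min_le_left κ 1])
        have h4 : (1 : ℝ) ≤ (B : ℝ) ^ (1 - min κ 1) :=
          Real.one_le_rpow hB1 (by linarith [min_le_right κ 1])
        calc (T.card : ℝ) ≤ 2 * ((B : ℝ) ^ (1 - κ) / b) + 1 := h2
          _ = 2 / b * (B : ℝ) ^ (1 - κ) + 1 := by ring
          _ ≤ 2 / b * (B : ℝ) ^ (1 - min κ 1) + 1 * (B : ℝ) ^ (1 - min κ 1) := by
              have h5 := mul_le_mul_of_nonneg_left h3 (by positivity : (0 : ℝ) ≤ 2 / b)
              linarith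
          _ = _ := by ring)
    exact ⟨min κ 1, C, by positivity, hC⟩
  · intro w
    set D : ℕ := finrank ℚ L with hD
    have hD0 : 0 < D := Module.finrank_pos
    have hD0' : (0 : ℝ) < D := by exact_mod_cast hD0
    set A : ℕ := (Algebra.norm ℤ (β i0)).natAbs with hAdef
    have hA0 : A ≠ 0 := by
      rw [hAdef, Int.natAbs_ne_zero]
      exact Algebra.norm_ne_zero_iff.2 hβ
    have hA1 : (1 : ℝ) ≤ A := by exact_mod_cast Nat.one_le_iff_ne_zero.2 hA0
    obtain ⟨C, hC⟩ := average_bound (K := K) i0 (ν := min 1 (κ / D))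
      (A₀ := (A : ℝ) + 1) (by positivity)
      (fun B => {c ∈ Bx K r B | ∃ e : ℕ, evB K β c ∈ w.asIdeal ^ e ∧
        κ * Real.log B ≤ e * lN w ∧ 1 ≤ e})
      (fun B c hc => hc.1) (by
        intro B hB Q T hT
        have hB1 : (1 : ℝ) ≤ B := by exact_mod_cast hB
        have hB0 : (0 : ℝ) < B := by linarith
        set g : ℝ := (B : ℝ) ^ (κ / D) / (A : ℝ) with hg
        have hg0 : 0 < g := by positivity
        have h1 : ∀ m ∈ T, ∀ m' ∈ T, m < m' → g ≤ (m' : ℝ) - m := by
          intro m hm m' hm' hlt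
          obtain ⟨e, he, hke, -⟩ := (hT m hm).2.2
          obtain ⟨e', he', hke', -⟩ := (hT m' hm').2.2
          rw [evB_single] at he he'
          have h2 : ∃ f : ℕ, ((m' - m : ℕ) : 𝓞 L) * β i0 ∈ w.asIdeal ^ f ∧
              κ * Real.log B ≤ f * lN w := by
            have key : ∀ f : ℕ, f ≤ e → f ≤ e' →
                ((m' - m : ℕ) : 𝓞 L) * β i0 ∈ w.asIdeal ^ f := by
              intro f hf hf'
              have k1 := Ideal.pow_le_pow_right hf he
              have k2 := Ideal.pow_le_pow_right hf' he'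
              have k3 := Ideal.sub_mem _ k2 k1
              convert k3 using 1
              push_cast [Nat.cast_sub hlt.le]
              ring
            rcases le_total e e' with hee | hee
            · exact ⟨e, key e le_rfl hee, hke⟩
            · exact ⟨e', key e' hee le_rfl, hke'⟩
          obtain ⟨f, hf, hkf⟩ := h2
          have h3 : Ideal.absNorm (w.asIdeal ^ f) ∣
              Ideal.absNorm (Ideal.span {((m' - m : ℕ) : 𝓞 L) * β i0}) := by
            apply Ideal.absNorm_dvd_absNorm_of_le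
            rw [Ideal.span_singleton_le_iff_mem]
            exact hf
          rw [Ideal.absNorm_span_singleton, map_pow, map_mul, Int.natAbs_mul, ← hAdef] at h3
          have h4 : Algebra.norm ℤ ((m' - m : ℕ) : 𝓞 L) = ((m' - m : ℕ) : ℤ) ^ D := by
            have := Algebra.norm_algebraMap_of_basis (RingOfIntegers.basis L)
              ((m' - m : ℕ) : ℤ)
            rw [← Module.finrank_eq_card_chooseBasisIndex ℤ (𝓞 L), RingOfIntegers.rank] at this
            rw [← this]
            congr 1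
            simp
          rw [h4, Int.natAbs_pow, Int.natAbs_natCast] at h3
          have h5 : 0 < (m' - m) ^ D * A := by
            have : 0 < m' - m := by omega
            have hA' : 0 < A := Nat.pos_of_ne_zero hA0
            positivity
          have h6 := Nat.le_of_dvd h5 h3
          have hmm : (0 : ℝ) ≤ (m' : ℝ) - m := by
            have : (m : ℝ) ≤ m' := by exact_mod_cast hlt.le
            linarith
          have h7 : (B : ℝ) ^ κ ≤ (((m' : ℝ) - m) * (A : ℝ)) ^ D := by
            have e1 : (B : ℝ) ^ κ ≤ ((Ideal.absNorm w.asIdeal : ℝ)) ^ f := by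
              have hw : (0 : ℝ) < (Ideal.absNorm w.asIdeal : ℝ) := by
                have : Ideal.absNorm w.asIdeal ≠ 0 := by
                  rw [Ne, Ideal.absNorm_eq_zero_iff]
                  exact w.ne_bot
                exact_mod_cast Nat.pos_of_ne_zero this
              rw [← Real.exp_log (show (0 : ℝ) < (B : ℝ) ^ κ by positivity),
                ← Real.exp_log (show (0 : ℝ) < (Ideal.absNorm w.asIdeal : ℝ) ^ f by positivity)]
              rw [Real.exp_le_exp, Real.log_rpow hB0, Real.log_pow]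
              exact hkf
            refine e1.trans ?_
            have e2 : ((Ideal.absNorm w.asIdeal : ℝ)) ^ f ≤ ((m' - m : ℕ) : ℝ) ^ D * A := by
              exact_mod_cast h6
            refine e2.trans ?_
            rw [Nat.cast_sub hlt.le, mul_pow]
            apply mul_le_mul_of_nonneg_left _ (by positivity)
            exact le_self_pow₀ hA1 hD0.ne'
          have h8 : (B : ℝ) ^ (κ / D) ≤ ((m' : ℝ) - m) * (A : ℝ) := by
            have hnn : (0 : ℝ) ≤ ((m' : ℝ) - m) * (A : ℝ) := by positivity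
            have e3 := Real.rpow_le_rpow (by positivity) h7
              (show (0 : ℝ) ≤ 1 / (D : ℝ) by positivity)
            rw [← Real.rpow_mul hB0.le, ← Real.rpow_natCast, ← Real.rpow_mul hnn] at e3
            rw [mul_one_div, mul_one_div_cancel hD0'.ne', Real.rpow_one] at e3
            exact e3
          rw [hg, div_le_iff₀ (by positivity)]
          exact h8
        have h2 := card_separated hg0 (fun m hm => (hT m hm).1) h1
        have h3 : (B : ℝ) / g = (A : ℝ) * (B : ℝ) ^ (1 - κ / D) := by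
          rw [hg, Real.rpow_sub hB0, Real.rpow_one]
          field_simp
        have h4 : (B : ℝ) ^ (1 - κ / D) ≤ (B : ℝ) ^ (1 - min 1 (κ / D)) :=
          Real.rpow_le_rpow_of_exponent_le hB1 (by linarith [min_le_right 1 (κ / D)])
        have h5 : (1 : ℝ) ≤ (B : ℝ) ^ (1 - min 1 (κ / D)) :=
          Real.one_le_rpow hB1 (by linarith [min_le_left 1 (κ / D)])
        rw [h3] at h2
        nlinarith [mul_le_mul_of_nonneg_left h4 (by positivity : (0 : ℝ) ≤ (A : ℝ))])
    exact ⟨min 1 (κ / D), C, by positivity, hC⟩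

end Pool.Agent.N966.CV.PlacesB

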