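import Pool.Agent.N753.DR.Stm2
import Pool.Agent.N530.DR.Large

/-!
# CV/LARGEB: double zeros above a large prime are rare (after Pool/Agent/N530/DR/Large.lean)
-/

set_option autoImplicit false
set_option linter.unusedSectionVars false

namespace Pool.Agent.N966.CV.LargeB

open NumberField IsDedekindDomain Module Polynomial Filter
open Pool.Agent.N753.DR Pool.Agent.N530.DR

/-- the complement of the range of an injective map -/
lemma exists_compl {s m : ℕ} (ι : Fin s → Fin m) (hι : Function.Injective ι) :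
    ∃ t, m = s + t ∧ ∃ κ : Fin t → Fin m, Function.Injective κ ∧
      Finset.univ.image κ = (Finset.univ.image ι)ᶜ := by
  classical
  set S : Finset (Fin m) := (Finset.univ.image ι)ᶜ with hS
  have h1 : S.card + s = m := by
    have h2 := Finset.card_compl_add_card (Finset.univ.image ι)
    rw [Finset.card_image_of_injective _ hι, Finset.card_univ, Fintype.card_fin,
      Fintype.card_fin] at h2
    exact h2
  refine ⟨S.card, by omega, fun j => (S.equivFin.symm j : Fin m), ?_, ?_⟩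
  · intro x y h
    exact S.equivFin.symm.injective (Subtype.ext h)
  · ext i
    rw [Finset.mem_image]
    constructor
    · rintro ⟨j, -, rfl⟩
      exact (S.equivFin.symm j).2
    · intro hi
      exact ⟨S.equivFin ⟨i, hi⟩, Finset.mem_univ _, by simp⟩

lemma sum_split {s t m : ℕ} {ι : Fin s → Fin m} (hι : Function.Injective ι) {κ : Fin t → Fin m}
    (hκ : Function.Injective κ) (h : Finset.univ.image κ = (Finset.univ.image ι)ᶜ) {M : Type}
    [AddCommMonoid M] (f : Fin m → M) : ∑ i, f i = ∑ j, f (ι j) + ∑ l, f (κ l) := by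
  classical
  rw [← Finset.sum_add_sum_compl (Finset.univ.image ι) f, ← h,
    Finset.sum_image (fun x _ y _ e => hι e), Finset.sum_image (fun x _ y _ e => hκ e)]

section

variable {K L : Type} [Field K] [NumberField K] [Field L] [NumberField L] [Algebra K L]

lemma evB_apply {m : ℕ} (β : Fin m → 𝓞 L) (d : Fin m → 𝓞 K) :
    evB K β d = ∑ i, algebraMap (𝓞 K) (𝓞 L) (d i) * β i := rfl

lemma coe_evB {m : ℕ} (β : Fin m → 𝓞 L) (d : Fin m → 𝓞 K) :
    ((evB K β d : 𝓞 L) : L) = ∑ i, algebraMap K L (d i) * (β i : L) := by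
  rw [evB_apply]
  change algebraMap (𝓞 L) L _ = _
  rw [map_sum]
  apply Finset.sum_congr rfl
  intro i _
  rw [map_mul]
  congr 1

lemma evB_ne {m : ℕ} (β : Fin m → 𝓞 L) (hβ : LinearIndependent K fun j => (β j : L))
    (d : Fin m → 𝓞 K) (hd : d ≠ 0) : evB K β d ≠ 0 := by
  intro h0
  apply hd
  have h2 : ((evB K β d : 𝓞 L) : L) = 0 := by
    rw [h0]
    exact map_zero (algebraMap (𝓞 L) L)
  rw [coe_evB] at h2
  rw [Fintype.linearIndependent_iff] at hβ
  have h3 := hβ (fun i => (d i : K)) (by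
    rw [← h2]
    exact Finset.sum_congr rfl fun i _ => Algebra.smul_def _ _)
  funext i
  exact RingOfIntegers.coe_eq_zero_iff.1 (h3 i)

lemma emb_boundB {s : ℕ} (β : Fin s → 𝓞 L) : ∃ C : ℝ, 1 ≤ C ∧ ∀ (d : Fin s → 𝓞 K) (T : ℝ),
    1 ≤ T → (∀ j, (sz (d j) : ℝ) ≤ T) →
      ∀ σ : L →ₐ[ℚ] ℂ, ‖σ (evB K β d : 𝓞 L)‖ ≤ C * T := by
  classical
  set A : (L →ₐ[ℚ] ℂ) → ℝ := fun σ => ∑ i : Fin s,
    (∑ l, ‖σ (algebraMap K L (RingOfIntegers.basis K l : 𝓞 K))‖) * ‖σ (β i : L)‖ with hA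
  have hA0 : ∀ σ, 0 ≤ A σ := fun σ => by positivity
  refine ⟨1 + ∑ σ, A σ, by linarith [Finset.sum_nonneg fun σ (_ : σ ∈ Finset.univ) => hA0 σ], ?_⟩
  intro d T hT hd σ
  have hle : A σ ≤ 1 + ∑ σ, A σ := by
    have := Finset.single_le_sum (f := A) (fun σ _ => hA0 σ) (Finset.mem_univ σ)
    linarith
  refine le_trans ?_ (mul_le_mul_of_nonneg_right hle (by linarith))
  rw [coe_evB, map_sum, hA, Finset.sum_mul]
  refine (norm_sum_le _ _).trans (Finset.sum_le_sum fun i _ => ?_)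
  rw [map_mul, norm_mul]
  have h1 : ‖σ (algebraMap K L (d i))‖ ≤
      T * ∑ l, ‖σ (algebraMap K L (RingOfIntegers.basis K l : 𝓞 K))‖ := by
    have h2 : (d i : K) = ∑ l, ((RingOfIntegers.basis K).repr (d i) l : K) *
        (RingOfIntegers.basis K l : 𝓞 K) := by
      have h3 := (RingOfIntegers.basis K).sum_repr (d i)
      have h4 := congrArg (algebraMap (𝓞 K) K) h3
      rw [map_sum] at h4
      refine h4.symm.trans ?_
      apply Finset.sum_congr rfl
      intro l _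
      rw [zsmul_eq_mul, map_mul, map_intCast]
    rw [h2, map_sum, map_sum, Finset.mul_sum]
    refine (norm_sum_le _ _).trans (Finset.sum_le_sum fun l _ => ?_)
    rw [map_mul, map_mul, norm_mul, map_intCast, map_intCast]
    apply mul_le_mul_of_nonneg_right _ (norm_nonneg _)
    rw [Complex.norm_intCast]
    have h5 : (((RingOfIntegers.basis K).repr (d i) l).natAbs : ℝ) ≤ T := by
      refine le_trans ?_ (hd i)
      have : ((RingOfIntegers.basis K).repr (d i) l).natAbs ≤ sz (d i) :=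
        Finset.le_sup (f := fun l => ((RingOfIntegers.basis K).repr (d i) l).natAbs)
          (Finset.mem_univ l)
      exact_mod_cast this
    rw [← Int.cast_abs, Int.abs_eq_natAbs, Int.cast_natCast]
    exact h5
  calc ‖σ (algebraMap K L (d i))‖ * ‖σ (β i : L)‖
      ≤ (T * ∑ l, ‖σ (algebraMap K L (RingOfIntegers.basis K l : 𝓞 K))‖) *
        ‖σ (β i : L)‖ :=
        mul_le_mul_of_nonneg_right h1 (norm_nonneg _)
    _ = _ := by ring

lemma fewB {s : ℕ} (β : Fin s → 𝓞 L) (hβ : LinearIndependent K fun j => (β j : L))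
    {δ : ℝ} (hδ : 0 < δ) : ∃ D : ℕ, ∀ B : ℕ, 2 ≤ B →
    ∀ d : Fin s → 𝓞 K, d ≠ 0 → (∀ j, sz (d j) ≤ 2 * B) →
    ∀ Q : Finset (HeightOneSpectrum (𝓞 K)),
    (∀ v ∈ Q, (B : ℝ) ^ δ ≤ Ideal.absNorm v.asIdeal ∧ ∃ b : Ideal (𝓞 L), IsTyp v b ∧
      Ideal.absNorm v.asIdeal ^ 2 ≤ Ideal.absNorm b ∧ evB K β d ∈ b) → Q.card ≤ D := by
  classical
  obtain ⟨C, hC1, hC⟩ := emb_boundB (K := K) β
  have hl2 : 0 < Real.log 2 := Real.log_pos (by norm_num)
  obtain ⟨D, hD⟩ := exists_nat_ge (finrank ℚ L * (Real.log (C * 2) / Real.log 2 + 1) / (2 * δ))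
  refine ⟨D, fun B hB d hd hdB Q hQ => ?_⟩
  have hB' : (2 : ℝ) ≤ B := by exact_mod_cast hB
  have hB0 : (0 : ℝ) < B := by linarith
  have hlB : Real.log 2 ≤ Real.log B := Real.log_le_log (by norm_num) hB'
  set z : 𝓞 L := evB K β d with hz
  have hz0 : z ≠ 0 := evB_ne β hβ d hd
  choose! b hb1 hb2 hb3 using fun v hv => (hQ v hv).2
  have h1 : ∏ v ∈ Q, b v ∣ Ideal.span {z} := by
    apply Finset.prod_dvd_of_coprime
    · intro v hv v' hv' hne
      exact coprime_typ hne (hb1 v hv) (hb1 v' hv')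
    · intro v hv
      rw [Ideal.dvd_iff_le, Ideal.span_singleton_le_iff_mem]
      exact hb3 v hv
  have hspan : Ideal.absNorm (Ideal.span {z}) ≠ 0 := by
    rw [Ne, Ideal.absNorm_eq_zero_iff, Ideal.span_singleton_eq_bot]
    exact hz0
  have h2 : ∏ v ∈ Q, Ideal.absNorm (b v) ≤ Ideal.absNorm (Ideal.span {z}) := by
    rw [← map_prod]
    exact Nat.le_of_dvd (Nat.pos_of_ne_zero hspan) (map_dvd Ideal.absNorm h1)
  have h3 : (Ideal.absNorm (Ideal.span {z}) : ℝ) ≤ (C * (2 * B)) ^ finrank ℚ L := by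
    apply absNorm_le
    intro σ
    exact hC d (2 * B) (by linarith) (fun j => by exact_mod_cast hdB j) σ
  have h4 : ((B : ℝ) ^ δ) ^ (2 * Q.card) ≤ ∏ v ∈ Q, (Ideal.absNorm (b v) : ℝ) := by
    rw [pow_mul, ← Finset.prod_const]
    apply Finset.prod_le_prod
    · intro v _
      positivity
    · intro v hv
      have h5 : ((B : ℝ) ^ δ) ^ 2 ≤ (Ideal.absNorm v.asIdeal : ℝ) ^ 2 :=
        pow_le_pow_left₀ (by positivity) (hQ v hv).1 2
      refine h5.trans ?_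
      exact_mod_cast hb2 v hv
  have h5 : ((B : ℝ) ^ δ) ^ (2 * Q.card) ≤ (C * (2 * B)) ^ finrank ℚ L := by
    refine h4.trans (le_trans ?_ h3)
    exact_mod_cast h2
  have h6 := Real.log_le_log (by positivity) h5
  rw [Real.log_pow, Real.log_pow, Real.log_rpow hB0] at h6
  have h7 : Real.log (C * (2 * B)) = Real.log (C * 2) + Real.log B := by
    rw [← mul_assoc, Real.log_mul (by positivity) (by positivity)]
  have h8 : 0 ≤ Real.log (C * 2) := Real.log_nonneg (by linarith)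
  have h9 : Real.log (C * (2 * B)) ≤ (Real.log (C * 2) / Real.log 2 + 1) * Real.log B := by
    rw [h7, add_mul, one_mul]
    have : Real.log (C * 2) = Real.log (C * 2) / Real.log 2 * Real.log 2 := by
      field_simp
    have h10 : Real.log (C * 2) / Real.log 2 * Real.log 2 ≤
        Real.log (C * 2) / Real.log 2 * Real.log B :=
      mul_le_mul_of_nonneg_left hlB (by positivity)
    linarith
  have h10 : (Q.card : ℝ) ≤ finrank ℚ L * (Real.log (C * 2) / Real.log 2 + 1) / (2 * δ) := by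
    rw [le_div_iff₀ (by positivity)]
    have h11 : (finrank ℚ L : ℝ) * Real.log (C * (2 * B)) ≤
        finrank ℚ L * ((Real.log (C * 2) / Real.log 2 + 1) * Real.log B) :=
      mul_le_mul_of_nonneg_left h9 (by positivity)
    have h12 : (Q.card : ℝ) * (2 * δ) * Real.log B ≤
        (finrank ℚ L * (Real.log (C * 2) / Real.log 2 + 1)) * Real.log B := by
      push_cast at h6
      linarith
    exact le_of_mul_le_mul_right h12 (by linarith)
  exact_mod_cast h10.trans hD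

omit [NumberField L] in
/-- many cosets of large index, for one dyadic block -/
lemma onePB {s N : ℕ} (E : (Fin s → 𝓞 K) →+ 𝓞 L) (hN : finrank ℚ K * s = N) {CL : ℝ}
    (hCL : ∀ (ι : Type) (I : Finset ι)
      (Λ : ι → AddSubgroup (Fin N → ℤ)) (x : ι → Fin N → ℤ) (B P D : ℕ), 1 ≤ B → 1 ≤ P → 1 ≤ D →
      I.card ≤ D * P → (∀ i ∈ I, (Λ i).index ≠ 0 ∧ P ^ 2 ≤ (Λ i).index) →
      (∀ c : Fin N → ℤ, c ≠ 0 → (∀ j, |c j| ≤ 2 * B) → {i | i ∈ I ∧ c ∈ Λ i}.ncard ≤ D) →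
      ∑ i ∈ I, ({c : Fin N → ℤ | (∀ j, |c j| ≤ B) ∧ c - x i ∈ Λ i}.ncard : ℝ) ≤
        CL * D * (P + (B : ℝ) ^ ((N : ℝ) - 1) * (P : ℝ) ^ (1 / (N : ℝ)) +
          (B : ℝ) ^ (N : ℝ) * (P : ℝ) ^ (-(1 / (N : ℝ)))))
    (I : Finset (HeightOneSpectrum (𝓞 K) × Ideal (𝓞 L))) (B P D : ℕ) (hB : 1 ≤ B) (hP : 1 ≤ P)
    (hD : 1 ≤ D) (hI : I.card ≤ D * P)
    (hidx : ∀ q ∈ I, ((Submodule.toAddSubgroup q.2).comap (E)).index ≠ 0 ∧
      P ^ 2 ≤ ((Submodule.toAddSubgroup q.2).comap (E)).index)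
    (hfew : ∀ d : Fin s → 𝓞 K, d ≠ 0 → (∀ j, sz (d j) ≤ 2 * B) →
      {q | q ∈ I ∧ E d ∈ q.2}.ncard ≤ D) (g : 𝓞 L) :
    ∑ q ∈ I, ({c | c ∈ Bx K s B ∧ E c + g ∈ q.2}.ncard : ℝ) ≤
      CL * D * (P + (B : ℝ) ^ ((N : ℝ) - 1) * (P : ℝ) ^ (1 / (N : ℝ)) +
          (B : ℝ) ^ (N : ℝ) * (P : ℝ) ^ (-(1 / (N : ℝ)))) := by
  classical
  obtain ⟨φ, hφ⟩ := exists_coord K s N hN
  set Λ : HeightOneSpectrum (𝓞 K) × Ideal (𝓞 L) → AddSubgroup (Fin N → ℤ) := fun q =>
    ((Submodule.toAddSubgroup q.2).comap (E)).comap φ.toAddMonoidHom with hΛ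
  have hmem : ∀ q x, x ∈ Λ q ↔ E (φ x) ∈ q.2 := fun q x => Iff.rfl
  have hx : ∀ q : HeightOneSpectrum (𝓞 K) × Ideal (𝓞 L), ∃ x : Fin N → ℤ,
      ∀ y, E (φ y) + g ∈ q.2 → y - x ∈ Λ q := by
    intro q
    by_cases h : ∃ x, E (φ x) + g ∈ q.2
    · obtain ⟨x, hx⟩ := h
      refine ⟨x, fun y hy => ?_⟩
      rw [hmem, map_sub, map_sub]
      have := q.2.sub_mem hy hx
      rwa [add_sub_add_right_eq_sub] at this
    · exact ⟨0, fun y hy => absurd ⟨y, hy⟩ h⟩
  choose x hx using hx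
  refine le_trans ?_ (hCL _ I Λ x B P D hB hP hD hI ?_ ?_)
  · apply Finset.sum_le_sum
    intro q _
    have : {c | c ∈ Bx K s B ∧ E c + g ∈ q.2}.ncard ≤
        {c : Fin N → ℤ | (∀ j, |c j| ≤ B) ∧ c - x q ∈ Λ q}.ncard := by
      refine Set.ncard_le_ncard_of_injOn φ.symm ?_ (φ.symm.injective.injOn)
        ((finite_box N B).subset fun c hc => hc.1)
      rintro c ⟨hc1, hc2⟩
      refine ⟨(hφ _ _).1 ?_, hx q _ ?_⟩
      · rw [φ.apply_symm_apply]
        exact hc1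
      · rw [φ.apply_symm_apply]
        exact hc2
    exact_mod_cast this
  · intro q hq
    have h1 : (Λ q).index = ((Submodule.toAddSubgroup q.2).comap (E)).index :=
      AddSubgroup.index_comap_of_surjective _ φ.surjective
    rw [h1]
    exact hidx q hq
  · intro c hc hcB
    refine hfew (φ c) ?_ ?_
    · intro h
      apply hc
      apply φ.injective
      rw [h, map_zero]
    · have := (hφ c (2 * B)).2 (fun j => by
        have := hcB j
        push_cast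
        exact this)
      exact this

end

theorem t (h1 : StmLat) (h2 : StmTypB) : StmLargeB := by
  classical
  intro K L _ _ _ _ _ m β i0 i1 hβ0 hadj s ι hι hi0 hi1 hlin
  have hs1 : 1 ≤ s := by
    obtain ⟨j, -⟩ := hi0
    have := j.2
    omega
  obtain ⟨Bad, hBad⟩ := h2 K L m β i0 i1 hβ0 hadj
  refine ⟨Bad, fun δ hδ => ?_⟩
  obtain ⟨n, hn⟩ : ∃ n, n = finrank ℚ K := ⟨_, rfl⟩
  have hn1 : 1 ≤ n := by
    rw [hn]
    exact Module.finrank_pos
  obtain ⟨N, hN⟩ : ∃ N, finrank ℚ K * s = N := ⟨_, rfl⟩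
  have hN1 : 1 ≤ N := by
    rw [← hN, ← hn]
    exact Nat.mul_pos hn1 hs1
  have hNr : (finrank ℚ K : ℝ) * s = N := by
    rw [← hN]
    push_cast
    rfl
  obtain ⟨CL, hCL0, hCL⟩ := h1 N hN1
  obtain ⟨Cp, hCp⟩ := exists_primes_card K
  obtain ⟨D1, hD1⟩ := fewB (K := K) (fun j => β (ι j)) hlin hδ
  set k2 := 2 * finrank K L ^ 2 with hk2
  set D := k2 * (D1 + 2 * Cp) + 1 with hD
  have hD1' : 1 ≤ D := by omega
  obtain ⟨t, ht, κ, hκ, hκι⟩ := exists_compl ι hι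
  have hN' : (0 : ℝ) < N := by exact_mod_cast hN1
  have hN1' : (1 : ℝ) ≤ N := by exact_mod_cast hN1
  -- typing sets
  have hfib : ∀ J : Finset (HeightOneSpectrum (𝓞 K) × Ideal (𝓞 L)),
      (∀ q ∈ J, q.1 ∉ Bad ∧ IsTyp q.1 q.2) → J.card ≤ k2 * (J.image Prod.fst).card := by
    intro J hJ
    apply Finset.card_le_mul_card_image
    intro v hv
    obtain ⟨q, hq, rfl⟩ := Finset.mem_image.1 hv
    obtain ⟨hq1, hq2⟩ := hJ q hq
    obtain ⟨-, -, -, -, -, -, hfin, hcard⟩ := hBad q.1 hq1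
    rw [← Set.ncard_coe_finset]
    refine le_trans ?_ hcard
    refine Set.ncard_le_ncard_of_injOn Prod.snd ?_ ?_ hfin
    · intro q' hq'
      have h3 := Finset.mem_filter.1 (Finset.mem_coe.1 hq')
      show IsTyp q.1 q'.2
      rw [← h3.2]
      exact (hJ q' h3.1).2
    · intro q' hq' q'' hq'' he
      have h3 := Finset.mem_filter.1 (Finset.mem_coe.1 hq')
      have h4 := Finset.mem_filter.1 (Finset.mem_coe.1 hq'')
      exact Prod.ext (h3.2.trans h4.2.symm) he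
  set ε : ℝ := δ / (2 * N) with hε
  have hε0 : 0 < ε := by positivity
  have hl2 : 0 < Real.log 2 := Real.log_pos (by norm_num)
  set CJ : ℝ := N / (ε * Real.log 2) + 1 with hCJ
  have hCJ0 : 0 < CJ := by positivity
  refine ⟨ε, CJ * 3 ^ (finrank ℚ K * t) * (CL * D * 4), hε0, fun B hB => ?_⟩
  have hB' : (1 : ℝ) ≤ B := by exact_mod_cast hB
  have hB0 : (0 : ℝ) < B := by linarith
  -- the case B = 1
  rcases Nat.lt_or_ge B 2 with hB2 | hB2
  · have hB1 : B = 1 := by omega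
    have hempty : {c ∈ Bx K m B | ∃ v ∉ Bad, (B : ℝ) ^ δ ≤ Ideal.absNorm v.asIdeal ∧
      (Ideal.absNorm v.asIdeal : ℝ) ≤ (B : ℝ) ^ ((finrank ℚ K : ℝ) * s - δ) ∧
      NSB β c v} = ∅ := by
      rw [Set.eq_empty_iff_forall_notMem]
      rintro c ⟨-, v, -, -, hv, -⟩
      rw [hB1, Nat.cast_one, Real.one_rpow] at hv
      have h3 : Ideal.absNorm v.asIdeal ≤ 1 := by exact_mod_cast hv
      have h4 : Ideal.absNorm v.asIdeal ≠ 0 := by
        rw [Ne, Ideal.absNorm_eq_zero_iff]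
        exact v.ne_bot
      have h5 : Ideal.absNorm v.asIdeal = 1 := by omega
      rw [Ideal.absNorm_eq_one_iff] at h5
      exact v.isPrime.ne_top h5
    rw [hempty, Set.ncard_empty, Nat.cast_zero]
    positivity
  -- the sets of types
  set SI : ℕ → Set (HeightOneSpectrum (𝓞 K) × Ideal (𝓞 L)) := fun P =>
    {q | q.1 ∉ Bad ∧ P ≤ Ideal.absNorm q.1.asIdeal ∧ Ideal.absNorm q.1.asIdeal ≤ 2 * P ∧
      (B : ℝ) ^ δ ≤ Ideal.absNorm q.1.asIdeal ∧ IsTyp q.1 q.2} with hSI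
  have hSIfin : ∀ P, (SI P).Finite := by
    intro P
    have h3 : SI P ⊆ ⋃ v ∈ {v : HeightOneSpectrum (𝓞 K) | Ideal.absNorm v.asIdeal ≤ 2 * P},
        (if v ∉ Bad then (fun b => (v, b)) '' {b : Ideal (𝓞 L) | IsTyp v b} else ∅) := by
      rintro ⟨v, b⟩ ⟨g1, g2, g3, g4, g5⟩
      simp only [Set.mem_iUnion]
      refine ⟨v, g3, ?_⟩
      rw [if_pos g1]
      exact ⟨b, g5, rfl⟩
    refine ((finite_primes K (2 * P)).biUnion fun v _ => ?_).subset h3
    by_cases hv : v ∈ Bad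
    · rw [if_neg (by simpa using hv)]
      exact Set.finite_empty
    · rw [if_pos hv]
      obtain ⟨-, -, -, -, -, -, hfin, -⟩ := hBad v hv
      exact hfin.image _
  set I : ℕ → Finset (HeightOneSpectrum (𝓞 K) × Ideal (𝓞 L)) := fun P => (hSIfin P).toFinset with hI
  have hmemI : ∀ P q, q ∈ I P ↔ q ∈ SI P := fun P q => (hSIfin P).mem_toFinset
  have hIcard : ∀ P, 1 ≤ P → (I P).card ≤ D * P := by
    intro P hP
    refine (hfib (I P) fun q hq => ?_).trans ?_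
    · obtain ⟨g1, g2, g3, g4, g5⟩ := (hmemI P q).1 hq
      exact ⟨g1, g5⟩
    · have h3 : ((I P).image Prod.fst).card ≤ Cp * (2 * P) := by
        refine le_trans ?_ (hCp (2 * P) (by omega))
        rw [← Set.ncard_coe_finset]
        apply Set.ncard_le_ncard _ (finite_primes K (2 * P))
        intro v hv
        obtain ⟨q, hq, rfl⟩ := Finset.mem_image.1 (Finset.mem_coe.1 hv)
        obtain ⟨g1, g2, g3, g4, g5⟩ := (hmemI P q).1 hq
        exact g3
      calc k2 * ((I P).image Prod.fst).card ≤ k2 * (Cp * (2 * P)) := Nat.mul_le_mul_left _ h3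
        _ ≤ D * P := by
          rw [hD]
          have : (k2 * (D1 + 2 * Cp) + 1) * P = k2 * (Cp * (2 * P)) + (k2 * D1 * P + P) := by ring
          rw [this]
          exact Nat.le_add_right _ _
  have hIidx : ∀ P, ∀ q ∈ I P,
      ((Submodule.toAddSubgroup q.2).comap (evB K (fun j => β (ι j)))).index ≠ 0 ∧
      P ^ 2 ≤ ((Submodule.toAddSubgroup q.2).comap (evB K (fun j => β (ι j)))).index := by
    intro P q hq
    obtain ⟨g1, g2, g3, g4, g5⟩ := (hmemI P q).1 hq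
    obtain ⟨-, -, -, -, hidx, -, -, -⟩ := hBad q.1 g1
    obtain ⟨g6, g7⟩ := hidx q.2 g5 s ι hι hi0 hi1
    exact ⟨g6, (Nat.pow_le_pow_left g2 2).trans g7⟩
  have hIfew : ∀ P, ∀ d : Fin s → 𝓞 K, d ≠ 0 → (∀ j, sz (d j) ≤ 2 * B) →
      {q | q ∈ I P ∧ evB K (fun j => β (ι j)) d ∈ q.2}.ncard ≤ D := by
    intro P d hd hdB
    have h3 : {q | q ∈ I P ∧ evB K (fun j => β (ι j)) d ∈ q.2} =
        (((I P).filter fun q => evB K (fun j => β (ι j)) d ∈ q.2 :
          Finset (HeightOneSpectrum (𝓞 K) × Ideal (𝓞 L))) : Set _) := by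
      ext q
      simp only [Set.mem_ofPred_eq, Finset.coe_filter]
    rw [h3, Set.ncard_coe_finset]
    refine (hfib _ fun q hq => ?_).trans ?_
    · obtain ⟨g1, g2, g3, g4, g5⟩ := (hmemI P q).1 (Finset.mem_filter.1 hq).1
      exact ⟨g1, g5⟩
    · have h4 := hD1 B hB2 d hd hdB (((I P).filter fun q => evB K (fun j => β (ι j)) d ∈ q.2).image Prod.fst) (by
        intro v hv
        obtain ⟨q, hq, rfl⟩ := Finset.mem_image.1 hv
        obtain ⟨hq1, hq2⟩ := Finset.mem_filter.1 hq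
        obtain ⟨g1, g2, g3, g4, g5⟩ := (hmemI P q).1 hq1
        obtain ⟨-, -, -, -, -, hno, -, -⟩ := hBad q.1 g1
        exact ⟨g4, q.2, g5, (hno q.2 g5).2, hq2⟩)
      calc k2 * _ ≤ k2 * D1 := Nat.mul_le_mul_left _ h4
        _ ≤ D := by
          rw [hD]
          have : k2 * (D1 + 2 * Cp) + 1 = k2 * D1 + (k2 * (2 * Cp) + 1) := by ring
          rw [this]
          exact Nat.le_add_right _ _
  -- the decomposition
  set G : (Fin t → 𝓞 K) → 𝓞 L := fun e => ∑ i : Fin t,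
      algebraMap (𝓞 K) (𝓞 L) (e i) * β (κ i) with hG
  set hd : (Fin m → 𝓞 K) → (Fin s → 𝓞 K) := fun c i => c (ι i) with hhd
  set tl : (Fin m → 𝓞 K) → (Fin t → 𝓞 K) := fun c i => c (κ i) with htl
  have hev : ∀ c : Fin m → 𝓞 K, evB K β c = evB K (fun j => β (ι j)) (hd c) + G (tl c) := by
    intro c
    rw [evB_apply, evB_apply, sum_split hι hκ hκι]
  have hinj : ∀ c c' : Fin m → 𝓞 K, hd c = hd c' → tl c = tl c' → c = c' := by
    intro c c' e1 e2
    funext i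
    by_cases hi : i ∈ Finset.univ.image ι
    · obtain ⟨j, -, rfl⟩ := Finset.mem_image.1 hi
      exact congrFun e1 j
    · rw [← Finset.mem_compl, ← hκι] at hi
      obtain ⟨j, -, rfl⟩ := Finset.mem_image.1 hi
      exact congrFun e2 j
  set A : (Fin t → 𝓞 K) → HeightOneSpectrum (𝓞 K) × Ideal (𝓞 L) → Set (Fin m → 𝓞 K) :=
    fun e q => {c | c ∈ Bx K m B ∧ tl c = e ∧ evB K β c ∈ q.2} with hA
  have hAle : ∀ e q, (A e q).ncard ≤ {c | c ∈ Bx K s B ∧ evB K (fun j => β (ι j)) c + G e ∈ q.2}.ncard := by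
    intro e q
    refine Set.ncard_le_ncard_of_injOn hd ?_ ?_ ((finite_Bx K s B).subset fun c hc => hc.1)
    · rintro c ⟨g1, g2, g3⟩
      refine ⟨fun j => g1 _, ?_⟩
      rw [← g2, ← hev]
      exact g3
    · rintro c ⟨g1, g2, g3⟩ c' ⟨g1', g2', g3'⟩ he
      exact hinj c c' he (g2.trans g2'.symm)
  set J : ℕ := ⌊N * Real.log B / Real.log 2⌋₊ with hJ
  set JS : Finset ℕ := (Finset.range (J + 1)).filter fun j =>
    (B : ℝ) ^ δ / 2 ≤ (2 : ℝ) ^ j ∧ (2 : ℝ) ^ j ≤ (B : ℝ) ^ ((N : ℝ) - δ) with hJS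
  set T : Finset (Fin t → 𝓞 K) := (finite_Bx K t B).toFinset with hT
  have hcover : {c ∈ Bx K m B | ∃ v ∉ Bad, (B : ℝ) ^ δ ≤ Ideal.absNorm v.asIdeal ∧
      (Ideal.absNorm v.asIdeal : ℝ) ≤ (B : ℝ) ^ ((finrank ℚ K : ℝ) * s - δ) ∧
      NSB β c v} ⊆ ⋃ j ∈ JS, ⋃ e ∈ T, ⋃ q ∈ I (2 ^ j), A e q := by
    rintro c ⟨hc, v, hv, hv1, hv2, b, hb, hcb⟩
    rw [hNr] at hv2
    have hv0 : Ideal.absNorm v.asIdeal ≠ 0 := by
      rw [Ne, Ideal.absNorm_eq_zero_iff]
      exact v.ne_bot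
    set j := Nat.log 2 (Ideal.absNorm v.asIdeal) with hj
    have hj1 : 2 ^ j ≤ Ideal.absNorm v.asIdeal := Nat.pow_log_le_self 2 hv0
    have hj2 : Ideal.absNorm v.asIdeal < 2 ^ (j + 1) := Nat.lt_pow_succ_log_self (by norm_num) _
    have hj1' : (2 : ℝ) ^ j ≤ Ideal.absNorm v.asIdeal := by exact_mod_cast hj1
    have hj2' : (Ideal.absNorm v.asIdeal : ℝ) < 2 ^ (j + 1) := by exact_mod_cast hj2
    have hjJ : j ≤ J := by
      apply Nat.le_floor
      rw [le_div_iff₀ hl2]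
      have h3 : (2 : ℝ) ^ j ≤ (B : ℝ) ^ (N : ℝ) := by
        refine (hj1'.trans hv2).trans ?_
        exact Real.rpow_le_rpow_of_exponent_le hB' (by linarith)
      have h4 := Real.log_le_log (by positivity) h3
      rwa [Real.log_pow, Real.log_rpow hB0] at h4
    simp only [Set.mem_iUnion]
    refine ⟨j, ?_, tl c, ?_, (v, b), ?_, hc, rfl, hcb⟩
    · rw [hJS, Finset.mem_filter, Finset.mem_range]
      refine ⟨by omega, ?_, hj1'.trans hv2⟩
      rw [pow_succ] at hj2'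
      linarith
    · rw [hT, Set.Finite.mem_toFinset]
      exact fun i => hc _
    · rw [hmemI]
      refine ⟨hv, hj1, ?_, hv1, hb⟩
      rw [pow_succ] at hj2
      simp only
      omega
  have hfinU : (⋃ j ∈ JS, ⋃ e ∈ T, ⋃ q ∈ I (2 ^ j), A e q).Finite := by
    apply (finite_Bx K m B).subset
    intro c hc
    simp only [Set.mem_iUnion] at hc
    obtain ⟨j, -, e, -, q, -, g1, -⟩ := hc
    exact g1
  have hcount : ((⋃ j ∈ JS, ⋃ e ∈ T, ⋃ q ∈ I (2 ^ j), A e q).ncard : ℝ) ≤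
      ∑ j ∈ JS, ∑ e ∈ T, ∑ q ∈ I (2 ^ j), ((A e q).ncard : ℝ) := by
    have h3 : (⋃ j ∈ JS, ⋃ e ∈ T, ⋃ q ∈ I (2 ^ j), A e q).ncard ≤
        ∑ j ∈ JS, ∑ e ∈ T, ∑ q ∈ I (2 ^ j), (A e q).ncard := by
      refine (ncard_biUnion_le' _ _).trans (Finset.sum_le_sum fun j _ => ?_)
      refine (ncard_biUnion_le' _ _).trans (Finset.sum_le_sum fun e _ => ?_)
      exact ncard_biUnion_le' _ _
    exact_mod_cast h3
  have hblock : ∀ j ∈ JS, ∀ e ∈ T, ∑ q ∈ I (2 ^ j), ((A e q).ncard : ℝ) ≤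
      CL * D * (4 * (B : ℝ) ^ ((N : ℝ) - δ / N)) := by
    intro j hj e _
    rw [hJS, Finset.mem_filter] at hj
    obtain ⟨-, hj1, hj2⟩ := hj
    have h3 : ∑ q ∈ I (2 ^ j), ((A e q).ncard : ℝ) ≤
        ∑ q ∈ I (2 ^ j), ({c | c ∈ Bx K s B ∧ evB K (fun j => β (ι j)) c + G e ∈ q.2}.ncard : ℝ) :=
      Finset.sum_le_sum fun q _ => by exact_mod_cast hAle e q
    have hP1 : 1 ≤ 2 ^ j := Nat.one_le_two_pow
    have h4 := onePB (K := K) (L := L) (evB K (fun j => β (ι j))) hN hCL (I (2 ^ j)) B (2 ^ j) D hB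
      hP1 hD1' (hIcard _ hP1) (hIidx _) (hIfew _) (G e)
    refine h3.trans (h4.trans ?_)
    apply mul_le_mul_of_nonneg_left _ (by positivity)
    push_cast
    set P : ℝ := (2 : ℝ) ^ j with hP
    have hP0 : 0 < P := by positivity
    have e1 : P ≤ (B : ℝ) ^ ((N : ℝ) - δ / N) := by
      refine hj2.trans (Real.rpow_le_rpow_of_exponent_le hB' ?_)
      have : δ / N ≤ δ := div_le_self hδ.le hN1'
      linarith
    have e2 : (B : ℝ) ^ ((N : ℝ) - 1) * P ^ (1 / (N : ℝ)) ≤ (B : ℝ) ^ ((N : ℝ) - δ / N) := by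
      have h5 : P ^ (1 / (N : ℝ)) ≤ ((B : ℝ) ^ ((N : ℝ) - δ)) ^ (1 / (N : ℝ)) :=
        Real.rpow_le_rpow hP0.le hj2 (by positivity)
      rw [← Real.rpow_mul hB0.le] at h5
      refine (mul_le_mul_of_nonneg_left h5 (by positivity)).trans (le_of_eq ?_)
      rw [← Real.rpow_add hB0]
      congr 1
      field_simp
      ring
    have e3 : (B : ℝ) ^ (N : ℝ) * P ^ (-(1 / (N : ℝ))) ≤ 2 * (B : ℝ) ^ ((N : ℝ) - δ / N) := by
      have h5 : P ^ (-(1 / (N : ℝ))) ≤ ((B : ℝ) ^ δ / 2) ^ (-(1 / (N : ℝ))) :=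
        Real.rpow_le_rpow_of_nonpos (by positivity) hj1 (by
          have : 0 < 1 / (N : ℝ) := by positivity
          linarith)
      have h6 : ((B : ℝ) ^ δ / 2) ^ (-(1 / (N : ℝ))) = (B : ℝ) ^ (-(δ / N)) * 2 ^ (1 / (N : ℝ)) := by
        rw [div_eq_mul_inv, Real.mul_rpow (by positivity) (by positivity), ← Real.rpow_mul hB0.le,
          Real.inv_rpow (by norm_num), ← Real.rpow_neg (by norm_num), neg_neg]
        congr 2
        ring
      have h7 : (2 : ℝ) ^ (1 / (N : ℝ)) ≤ 2 := by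
        have : (2 : ℝ) ^ (1 / (N : ℝ)) ≤ 2 ^ (1 : ℝ) :=
          Real.rpow_le_rpow_of_exponent_le (by norm_num) (by
            rw [div_le_iff₀ hN']
            linarith)
        rwa [Real.rpow_one] at this
      rw [h6] at h5
      refine (mul_le_mul_of_nonneg_left h5 (by positivity)).trans ?_
      have h8 : (B : ℝ) ^ (N : ℝ) * ((B : ℝ) ^ (-(δ / N)) * 2 ^ (1 / (N : ℝ))) =
          2 ^ (1 / (N : ℝ)) * (B : ℝ) ^ ((N : ℝ) - δ / N) := by
        rw [sub_eq_add_neg, Real.rpow_add hB0]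
        ring
      rw [h8]
      exact mul_le_mul_of_nonneg_right h7 (by positivity)
    linarith
  have hJle : (JS.card : ℝ) ≤ CJ * (B : ℝ) ^ ε := by
    have h3 : JS.card ≤ J + 1 := by
      refine (Finset.card_filter_le _ _).trans ?_
      rw [Finset.card_range]
    have h4 : (JS.card : ℝ) ≤ J + 1 := by exact_mod_cast h3
    have hlB : 0 ≤ Real.log B := Real.log_nonneg hB'
    have h5 : (J : ℝ) ≤ N * Real.log B / Real.log 2 := Nat.floor_le (by positivity)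
    have h6 : Real.log B ≤ (B : ℝ) ^ ε / ε := Real.log_le_rpow_div hB0.le hε0
    have h7 : (1 : ℝ) ≤ (B : ℝ) ^ ε := Real.one_le_rpow hB' hε0.le
    have h8 : N * Real.log B / Real.log 2 ≤ N * ((B : ℝ) ^ ε / ε) / Real.log 2 := by
      apply div_le_div_of_nonneg_right _ hl2.le
      exact mul_le_mul_of_nonneg_left h6 hN'.le
    calc (JS.card : ℝ) ≤ N * ((B : ℝ) ^ ε / ε) / Real.log 2 + (B : ℝ) ^ ε := by linarith
      _ = CJ * (B : ℝ) ^ ε := by
        rw [hCJ]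
        field_simp
  have hTle : (T.card : ℝ) ≤ 3 ^ (finrank ℚ K * t) * (B : ℝ) ^ (finrank ℚ K * t) := by
    have h3 : T.card ≤ (2 * B + 1) ^ (finrank ℚ K * t) := by
      rw [hT, ← Set.ncard_eq_toFinset_card _ (finite_Bx K t B)]
      exact ncard_Bx K t B
    have h4 : (T.card : ℝ) ≤ (2 * B + 1 : ℝ) ^ (finrank ℚ K * t) := by exact_mod_cast h3
    refine h4.trans ?_
    rw [← mul_pow]
    apply pow_le_pow_left₀ (by positivity)
    linarith
  have hfinal : (({c ∈ Bx K m B | ∃ v ∉ Bad, (B : ℝ) ^ δ ≤ Ideal.absNorm v.asIdeal ∧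
      (Ideal.absNorm v.asIdeal : ℝ) ≤ (B : ℝ) ^ ((finrank ℚ K : ℝ) * s - δ) ∧
      NSB β c v}.ncard : ℕ) : ℝ) ≤
      JS.card * (T.card * (CL * D * (4 * (B : ℝ) ^ ((N : ℝ) - δ / N)))) := by
    refine le_trans (by exact_mod_cast Set.ncard_le_ncard hcover hfinU) (hcount.trans ?_)
    calc ∑ j ∈ JS, ∑ e ∈ T, ∑ q ∈ I (2 ^ j), ((A e q).ncard : ℝ)
        ≤ ∑ _j ∈ JS, ∑ _e ∈ T, CL * D * (4 * (B : ℝ) ^ ((N : ℝ) - δ / N)) :=
          Finset.sum_le_sum fun j hj => Finset.sum_le_sum fun e he => hblock j hj e he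
      _ = _ := by
          rw [Finset.sum_const, Finset.sum_const, nsmul_eq_mul, nsmul_eq_mul]
  refine hfinal.trans ?_
  have hX : 0 ≤ CL * D * (4 * (B : ℝ) ^ ((N : ℝ) - δ / N)) := by positivity
  calc (JS.card : ℝ) * (T.card * (CL * D * (4 * (B : ℝ) ^ ((N : ℝ) - δ / N))))
      ≤ (CJ * (B : ℝ) ^ ε) * ((3 ^ (finrank ℚ K * t) * (B : ℝ) ^ (finrank ℚ K * t)) *
        (CL * D * (4 * (B : ℝ) ^ ((N : ℝ) - δ / N)))) := by
        apply mul_le_mul hJle _ (by positivity) (by positivity)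
        exact mul_le_mul_of_nonneg_right hTle hX
    _ = CJ * 3 ^ (finrank ℚ K * t) * (CL * D * 4) * ((B : ℝ) ^ ε *
        (B : ℝ) ^ ((finrank ℚ K * t : ℕ) : ℝ) * (B : ℝ) ^ ((N : ℝ) - δ / N)) := by
        rw [Real.rpow_natCast]
        ring
    _ = CJ * 3 ^ (finrank ℚ K * t) * (CL * D * 4) *
        (B : ℝ) ^ ((finrank ℚ K : ℝ) * m - ε) := by
        congr 1
        rw [← Real.rpow_add hB0, ← Real.rpow_add hB0]
        congr 1
        have h9 : (m : ℝ) = s + t := by exact_mod_cast ht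
        rw [h9]
        push_cast
        rw [← hNr, hε]
        have h10 : δ / ((finrank ℚ K : ℝ) * s) = 2 * (δ / (2 * ((finrank ℚ K : ℝ) * s))) := by
          have : (finrank ℚ K : ℝ) * s ≠ 0 := by
            rw [hNr]
            exact hN'.ne'
          field_simp
        rw [← hNr, h10]
        ring

end Pool.Agent.N966.CV.LargeB

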