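import Mathlib
import Pool.Agent.N753.DR.Stm2
import Pool.Agent.N340.DR.Small

/-!
# CV/SMALLB (helper753): adapted from `Pool/Agent/N340/DR/Loc.lean`, `Small.lean`
-/

set_option autoImplicit false

open Finset NumberField IsDedekindDomain Module

namespace Pool.Agent.N966.CV.SmallB

open Pool.Agent.N753.DR
open Pool.Agent.N340.DR (dcount crt pow_rep descend tau_bound sum_bound sz_sub sz_nat bx_finite
  bx_card below_eq TT nat_mem_over TT_pow Cn Adm adm_step adm_exists repr_le_sz sz_zero)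
open Pool.Agent.H437R2.Man.Low (below nm below_data card_above nm_ne_zero two_le_nm)

section loc

variable {K L : Type} [Field K] [NumberField K] [Field L] [NumberField L] [Algebra K L]

lemma sz_add (x y : 𝓞 K) : sz (x + y) ≤ sz x + sz y := by
  conv_lhs => unfold sz
  refine Finset.sup_le fun i _ => ?_
  have h1 := repr_le_sz x i
  have h2 := repr_le_sz y i
  rw [map_add, Finsupp.add_apply]
  omega

/-- what we use of the conclusion of `StmTypB` -/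
def GoodB (β0 β1 : 𝓞 L) (v : HeightOneSpectrum (𝓞 K)) : Prop :=
    (∀ w : HeightOneSpectrum (𝓞 L), w.asIdeal.LiesOver v.asIdeal → β0 ∉ w.asIdeal) ∧
    (∀ w : HeightOneSpectrum (𝓞 L), w.asIdeal.LiesOver v.asIdeal → ∀ (e : ℕ) (c : 𝓞 K),
      algebraMap (𝓞 K) (𝓞 L) c ∈ w.asIdeal ^ e → c ∈ v.asIdeal ^ e) ∧
    (∀ p : ℕ, p.Prime → (p : 𝓞 K) ∈ v.asIdeal → ∀ (e : ℕ) (m : ℤ),
      (m : 𝓞 K) ∈ v.asIdeal ^ e → (p : ℤ) ^ e ∣ m) ∧
    (∀ w : HeightOneSpectrum (𝓞 L), w.asIdeal.LiesOver v.asIdeal → ∀ c0 c1 : 𝓞 K,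
      algebraMap (𝓞 K) (𝓞 L) c0 * β0 + algebraMap (𝓞 K) (𝓞 L) c1 * β1 ∈ w.asIdeal →
      (Ideal.absNorm v.asIdeal < Ideal.absNorm w.asIdeal ∨
        ∃ w' : HeightOneSpectrum (𝓞 L), w'.asIdeal.LiesOver v.asIdeal ∧ w' ≠ w ∧
          algebraMap (𝓞 K) (𝓞 L) c0 * β0 + algebraMap (𝓞 K) (𝓞 L) c1 * β1 ∈ w'.asIdeal) →
      c0 ∈ v.asIdeal ∧ c1 ∈ v.asIdeal) ∧
    {b : Ideal (𝓞 L) | IsTyp v b}.Finite ∧
      {b : Ideal (𝓞 L) | IsTyp v b}.ncard ≤ 2 * finrank K L ^ 2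

open scoped Classical in
/-- at most `p ^ g` classes -/
lemma TT_count {β0 β1 : 𝓞 L} {Bad : Finset (HeightOneSpectrum (𝓞 K))}
    (hG : ∀ v ∉ Bad, GoodB β0 β1 v) {p g : ℕ} (hp : p.Prime) {t : Ideal (𝓞 L)}
    (h : TT Bad p g t) (Q : 𝓞 L) :
    ((range (p ^ g) ×ˢ range (p ^ g)).filter fun m : ℕ × ℕ =>
      Q + ((m.1 : 𝓞 L) * β0 + (m.2 : 𝓞 L) * β1) ∈ t).card ≤ p ^ g := by
  obtain ⟨v, hv, hpv, h1⟩ := h
  obtain ⟨g1, g2, g3, g4, -, -⟩ := hG v hv
  -- the difference of two elements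
  have hdiff : ∀ (J : Ideal (𝓞 L)) (m m' : ℕ × ℕ),
      Q + ((m.1 : 𝓞 L) * β0 + (m.2 : 𝓞 L) * β1) ∈ J →
      Q + ((m'.1 : 𝓞 L) * β0 + (m'.2 : 𝓞 L) * β1) ∈ J →
      ((m.1 : 𝓞 L) - m'.1) * β0 + ((m.2 : 𝓞 L) - m'.2) * β1 ∈ J := by
    intro J m m' h1 h2
    have h3 := J.sub_mem h1 h2
    have e : Q + ((m.1 : 𝓞 L) * β0 + (m.2 : 𝓞 L) * β1) -
        (Q + ((m'.1 : 𝓞 L) * β0 + (m'.2 : 𝓞 L) * β1)) =
        ((m.1 : 𝓞 L) - m'.1) * β0 + ((m.2 : 𝓞 L) - m'.2) * β1 := by ring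
    rwa [e] at h3
  -- powers of a prime
  have case1 : ∀ w : HeightOneSpectrum (𝓞 L), w.asIdeal.LiesOver v.asIdeal → t = w.asIdeal ^ g →
      ((range (p ^ g) ×ˢ range (p ^ g)).filter fun m : ℕ × ℕ =>
      Q + ((m.1 : 𝓞 L) * β0 + (m.2 : 𝓞 L) * β1) ∈ t).card ≤ p ^ g := by
    intro w hw ht
    have h5 : ((range (p ^ g) ×ˢ range (p ^ g)).filter fun m : ℕ × ℕ =>
      Q + ((m.1 : 𝓞 L) * β0 + (m.2 : 𝓞 L) * β1) ∈ t).card ≤
      (range (p ^ g)).card := by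
      refine Finset.card_le_card_of_injOn (fun m => m.2) ?_ ?_
      · intro m hm
        rw [mem_coe, mem_filter, mem_product] at hm
        exact hm.1.2
      · intro m hm m' hm' he
        rw [mem_coe, mem_filter, mem_product, mem_range, mem_range] at hm hm'
        have h6 := hdiff t m m' hm.2 hm'.2
        simp only at he
        rw [he, sub_self, zero_mul, add_zero, ht] at h6
        have e1 : ((m.1 : 𝓞 L) - m'.1) * β0 = β0 * algebraMap (𝓞 K) (𝓞 L)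
            ((((m.1 : ℤ) - m'.1 : ℤ)) : 𝓞 K) := by
          rw [map_intCast]
          push_cast
          ring
        rw [e1] at h6
        have hwp := w.isPrime
        rcases Ideal.IsPrime.mul_mem_pow w.asIdeal h6 with h60 | h61
        · exact absurd h60 (g1 w hw)
        have h8 := g3 p hp hpv g _ (g2 w hw g _ h61)
        have h9 : (m.1 : ℤ) = m'.1 := by
          have h10 : m'.1 ≡ m.1 [MOD p ^ g] := by
            rw [Nat.modEq_iff_dvd]
            push_cast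
            exact h8
          exact_mod_cast (h10.eq_of_lt_of_lt hm'.1.1 hm.1.1).symm
        exact Prod.ext (by exact_mod_cast h9) he
    rwa [card_range] at h5
  rcases h1 with ⟨w, hw, ht⟩ | ⟨rfl, w, hw, h1⟩
  · exact case1 w hw ht
  · rcases h1 with ht | h1
    · exact case1 w hw ht
    · -- two classes modulo `p`
      have key : ∀ m m' : ℕ × ℕ,
          Q + ((m.1 : 𝓞 L) * β0 + (m.2 : 𝓞 L) * β1) ∈ t →
          Q + ((m'.1 : 𝓞 L) * β0 + (m'.2 : 𝓞 L) * β1) ∈ t →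
          (p : ℤ) ∣ (m.1 : ℤ) - m'.1 ∧ (p : ℤ) ∣ (m.2 : ℤ) - m'.2 := by
        intro m m' hm hm'
        have hpr : ∀ u : HeightOneSpectrum (𝓞 L), t ≤ u.asIdeal →
            algebraMap (𝓞 K) (𝓞 L) ((((m.1 : ℤ) - m'.1 : ℤ)) : 𝓞 K) * β0 +
              algebraMap (𝓞 K) (𝓞 L) ((((m.2 : ℤ) - m'.2 : ℤ)) : 𝓞 K) * β1 ∈ u.asIdeal := by
          intro u htu
          have h6 := htu (hdiff t m m' hm hm')
          have e1 : ((m.1 : 𝓞 L) - m'.1) * β0 + ((m.2 : 𝓞 L) - m'.2) * β1 =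
              algebraMap (𝓞 K) (𝓞 L) ((((m.1 : ℤ) - m'.1 : ℤ)) : 𝓞 K) * β0 +
              algebraMap (𝓞 K) (𝓞 L) ((((m.2 : ℤ) - m'.2 : ℤ)) : 𝓞 K) * β1 := by
            rw [map_intCast, map_intCast]
            push_cast
            ring
          rwa [e1] at h6
        have h9 : (((m.1 : ℤ) - m'.1 : ℤ) : 𝓞 K) ∈ v.asIdeal ∧
            (((m.2 : ℤ) - m'.2 : ℤ) : 𝓞 K) ∈ v.asIdeal := by
          rcases h1 with ⟨w', hw', hne, ht⟩ | ⟨ht, hN⟩
          · have t1 : t ≤ w.asIdeal := by rw [ht]; exact Ideal.mul_le_left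
            have t2 : t ≤ w'.asIdeal := by rw [ht]; exact Ideal.mul_le_right
            exact g4 w hw _ _ (hpr w t1) (Or.inr ⟨w', hw', hne, hpr w' t2⟩)
          · have t1 : t ≤ w.asIdeal := ht.le
            exact g4 w hw _ _ (hpr w t1) (Or.inl hN)
        have h10 := g3 p hp hpv 1 _ (by rw [pow_one]; exact h9.1)
        have h11 := g3 p hp hpv 1 _ (by rw [pow_one]; exact h9.2)
        rw [pow_one] at h10 h11
        exact ⟨h10, h11⟩
      have h5 : ((range (p ^ 2) ×ˢ range (p ^ 2)).filter fun m : ℕ × ℕ =>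
        Q + ((m.1 : 𝓞 L) * β0 + (m.2 : 𝓞 L) * β1) ∈ t).card ≤
        (range p ×ˢ range p).card := by
        refine Finset.card_le_card_of_injOn (fun m => (m.1 / p, m.2 / p)) ?_ ?_
        · intro m hm
          rw [mem_coe, mem_filter, mem_product, mem_range, mem_range] at hm
          rw [mem_coe, mem_product, mem_range, mem_range]
          simp only
          rw [Nat.div_lt_iff_lt_mul hp.pos, Nat.div_lt_iff_lt_mul hp.pos, ← sq]
          exact hm.1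
        · intro m hm m' hm' he
          rw [mem_coe, mem_filter, mem_product, mem_range, mem_range] at hm hm'
          obtain ⟨k1, k2⟩ := key m m' hm.2 hm'.2
          simp only [Prod.mk.injEq] at he
          have aux : ∀ x x' : ℕ, (p : ℤ) ∣ (x : ℤ) - x' → x / p = x' / p → x = x' := by
            intro x x' h1 h2
            have h3 : x' ≡ x [MOD p] := by
              rw [Nat.modEq_iff_dvd]
              exact h1
            have h4 : x' % p = x % p := h3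
            rw [← Nat.div_add_mod x p, ← Nat.div_add_mod x' p, h2, h4]
          exact Prod.ext (aux _ _ k1 he.1) (aux _ _ k2 he.2)
      rwa [card_product, card_range, ← sq] at h5

/-- the number of the types -/
lemma TT_card {β0 β1 : 𝓞 L} {Bad : Finset (HeightOneSpectrum (𝓞 K))}
    (hG : ∀ v ∉ Bad, GoodB β0 β1 v) {p : ℕ} (g : ℕ) (hp : p.Prime) :
    {t : Ideal (𝓞 L) | TT Bad p g t}.Finite ∧
      {t : Ideal (𝓞 L) | TT Bad p g t}.ncard ≤ finrank ℚ K * (4 * finrank K L ^ 2) := by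
  classical
  -- the primes above `p`
  have hfin : {v : HeightOneSpectrum (𝓞 K) | v ∉ Bad ∧ (p : 𝓞 K) ∈ v.asIdeal}.Finite := by
    have h1 : {v : HeightOneSpectrum (𝓞 K) | v.asIdeal ∣ Ideal.span {(p : 𝓞 K)}}.Finite := by
      refine Ideal.finite_factors ?_
      rw [Ne, Ideal.zero_eq_bot, Ideal.span_singleton_eq_bot]
      exact_mod_cast hp.ne_zero
    refine h1.subset fun v hv => ?_
    show v.asIdeal ∣ Ideal.span {(p : 𝓞 K)}
    rw [Ideal.dvd_iff_le, Ideal.span_singleton_le_iff_mem]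
    exact hv.2
  set V := hfin.toFinset with hV
  have hVm : ∀ v, v ∈ V ↔ v ∉ Bad ∧ (p : 𝓞 K) ∈ v.asIdeal := fun v => by
    rw [hV, Set.Finite.mem_toFinset]
    rfl
  have hVc : V.card ≤ finrank ℚ K := card_above p V fun v hv => below_eq hp ((hVm v).1 hv).2
  -- the types above `v`
  have hv1 : ∀ v : HeightOneSpectrum (𝓞 K), v ∉ Bad →
      ({b : Ideal (𝓞 L) | IsTyp v b}.Finite ∧
        {b : Ideal (𝓞 L) | IsTyp v b}.ncard ≤ 2 * finrank K L ^ 2) := fun v hv =>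
    (hG v hv).2.2.2.2
  have hv2 : ∀ v : HeightOneSpectrum (𝓞 K), v ∉ Bad →
      ({t : Ideal (𝓞 L) | ∃ w : HeightOneSpectrum (𝓞 L), w.asIdeal.LiesOver v.asIdeal ∧
        t = w.asIdeal ^ g}.Finite ∧
      {t : Ideal (𝓞 L) | ∃ w : HeightOneSpectrum (𝓞 L), w.asIdeal.LiesOver v.asIdeal ∧
        t = w.asIdeal ^ g}.ncard ≤ 2 * finrank K L ^ 2) := by
    intro v hv
    obtain ⟨f1, f2⟩ := hv1 v hv
    set W : Set (HeightOneSpectrum (𝓞 L)) := {w | w.asIdeal.LiesOver v.asIdeal} with hW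
    have hinj : Function.Injective fun w : HeightOneSpectrum (𝓞 L) => w.asIdeal ^ 2 := by
      intro w w' h
      have h1 : w.asIdeal ^ 2 = w'.asIdeal ^ 2 := h
      have h2 : w.asIdeal ≤ w'.asIdeal := by
        refine w'.isPrime.le_of_pow_le (n := 2) ?_
        rw [h1]
        exact Ideal.pow_le_self two_ne_zero
      apply HeightOneSpectrum.ext
      exact (w.isPrime.isMaximal w.ne_bot).eq_of_le w'.isPrime.ne_top h2
    have hmaps : ∀ w ∈ W, w.asIdeal ^ 2 ∈ {b : Ideal (𝓞 L) | IsTyp v b} := fun w hw =>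
      ⟨w, hw, Or.inl rfl⟩
    have hWf : W.Finite := Set.Finite.of_injOn hmaps hinj.injOn f1
    have hWc : W.ncard ≤ 2 * finrank K L ^ 2 :=
      (Set.ncard_le_ncard_of_injOn _ hmaps hinj.injOn f1).trans f2
    have e : {t : Ideal (𝓞 L) | ∃ w : HeightOneSpectrum (𝓞 L), w.asIdeal.LiesOver v.asIdeal ∧
        t = w.asIdeal ^ g} = (fun w : HeightOneSpectrum (𝓞 L) => w.asIdeal ^ g) '' W := by
      ext t
      constructor
      · rintro ⟨w, hw, rfl⟩
        exact ⟨w, hw, rfl⟩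
      · rintro ⟨w, hw, rfl⟩
        exact ⟨w, hw, rfl⟩
    rw [e]
    exact ⟨hWf.image _, (Set.ncard_image_le hWf).trans hWc⟩
  -- the union
  have hsub : {t : Ideal (𝓞 L) | TT Bad p g t} ⊆ ⋃ v ∈ V,
      ({t : Ideal (𝓞 L) | ∃ w : HeightOneSpectrum (𝓞 L), w.asIdeal.LiesOver v.asIdeal ∧
        t = w.asIdeal ^ g} ∪ {b : Ideal (𝓞 L) | IsTyp v b}) := by
    rintro t ⟨v, hv, hpv, h1 | ⟨-, h1⟩⟩
    · exact Set.mem_biUnion ((hVm v).2 ⟨hv, hpv⟩) (Or.inl h1)
    · exact Set.mem_biUnion ((hVm v).2 ⟨hv, hpv⟩) (Or.inr h1)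
  have hUf : (⋃ v ∈ V,
      ({t : Ideal (𝓞 L) | ∃ w : HeightOneSpectrum (𝓞 L), w.asIdeal.LiesOver v.asIdeal ∧
        t = w.asIdeal ^ g} ∪ {b : Ideal (𝓞 L) | IsTyp v b})).Finite := by
    refine Set.Finite.biUnion (Finset.finite_toSet V) fun v hv => ?_
    have hvB := ((hVm v).1 hv).1
    exact (hv2 v hvB).1.union (hv1 v hvB).1
  refine ⟨hUf.subset hsub, ?_⟩
  refine (Set.ncard_le_ncard hsub hUf).trans ?_
  refine (Finset.set_ncard_biUnion_le V _).trans ?_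
  calc ∑ v ∈ V, ({t : Ideal (𝓞 L) | ∃ w : HeightOneSpectrum (𝓞 L), w.asIdeal.LiesOver v.asIdeal ∧
        t = w.asIdeal ^ g} ∪ {b : Ideal (𝓞 L) | IsTyp v b}).ncard ≤
      ∑ _v ∈ V, 4 * finrank K L ^ 2 := by
        refine Finset.sum_le_sum fun v hv => ?_
        have hvB := ((hVm v).1 hv).1
        refine (Set.ncard_union_le _ _).trans ?_
        have h1 := (hv2 v hvB).2
        have h2 := (hv1 v hvB).2
        omega
    _ = V.card * (4 * finrank K L ^ 2) := by rw [Finset.sum_const, smul_eq_mul]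
    _ ≤ finrank ℚ K * (4 * finrank K L ^ 2) := Nat.mul_le_mul_right _ hVc

/-- the translation -/
noncomputable def sh (K : Type) [Field K] [NumberField K] {n : ℕ} (i0 i1 : Fin n) (m : ℕ × ℕ) :
    Fin n → 𝓞 K := Pi.single i0 (m.1 : 𝓞 K) + Pi.single i1 (m.2 : 𝓞 K)

lemma evB_single {n : ℕ} (β : Fin n → 𝓞 L) (i : Fin n) (x : 𝓞 K) :
    evB K β (Pi.single i x) = algebraMap (𝓞 K) (𝓞 L) x * β i := by
  show ∑ j : Fin n, algebraMap (𝓞 K) (𝓞 L) ((Pi.single i x : Fin n → 𝓞 K) j) * β j = _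
  rw [Finset.sum_eq_single i]
  · rw [Pi.single_eq_same]
  · intro j _ hj
    rw [Pi.single_eq_of_ne hj, map_zero, zero_mul]
  · intro h
    exact absurd (Finset.mem_univ i) h

lemma ev_sh {n : ℕ} (β : Fin n → 𝓞 L) (i0 i1 : Fin n) (Q : Fin n → 𝓞 K) (m : ℕ × ℕ) :
    evB K β (Q + sh K i0 i1 m) =
      evB K β Q + ((m.1 : 𝓞 L) * β i0 + (m.2 : 𝓞 L) * β i1) := by
  unfold sh
  rw [map_add, map_add, evB_single, evB_single, map_natCast, map_natCast]

lemma sz_single {n : ℕ} (i j : Fin n) (m : ℕ) :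
    sz ((Pi.single i (m : 𝓞 K) : Fin n → 𝓞 K) j) ≤ sz (1 : 𝓞 K) * m := by
  by_cases h : j = i
  · subst h
    rw [Pi.single_eq_same]
    exact sz_nat m
  · rw [Pi.single_eq_of_ne h, sz_zero]
    exact Nat.zero_le _

lemma sh_mem {n B q : ℕ} {i0 i1 : Fin n} {c : Fin n → 𝓞 K} (hc : c ∈ Bx K n B) {m : ℕ × ℕ}
    (hm : m ∈ range q ×ˢ range q) :
    c - sh K i0 i1 m ∈ Bx K n (B + 2 * sz (1 : 𝓞 K) * q) := by
  rw [mem_product, mem_range, mem_range] at hm
  intro j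
  rw [Pi.sub_apply]
  refine (sz_sub _ _).trans ?_
  have h1 : sz (c j) ≤ B := hc j
  have h2 : sz (sh K i0 i1 m j) ≤ sz (1 : 𝓞 K) * q + sz (1 : 𝓞 K) * q := by
    unfold sh
    rw [Pi.add_apply]
    refine (sz_add _ _).trans ?_
    exact Nat.add_le_add ((sz_single _ _ _).trans (Nat.mul_le_mul_left _ hm.1.le))
      ((sz_single _ _ _).trans (Nat.mul_le_mul_left _ hm.2.le))
  have h3 : 2 * sz (1 : 𝓞 K) * q = sz (1 : 𝓞 K) * q + sz (1 : 𝓞 K) * q := by ring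
  omega

/-- a count modulo `q` -/
lemma count_q {n : ℕ} {β : Fin n → 𝓞 L} {i0 i1 : Fin n}
    {Bad : Finset (HeightOneSpectrum (𝓞 K))}
    (hG : ∀ v ∉ Bad, GoodB (β i0) (β i1) v) {q : ℕ} (hq : q ≠ 0) (B : ℕ) :
    {c ∈ Bx K n B | Cn Bad (evB K β c) q}.ncard * q ≤
      (finrank ℚ K * (4 * finrank K L ^ 2)) ^ q.primeFactors.card *
        (2 * (B + 2 * sz (1 : 𝓞 K) * q) + 1) ^ (n * finrank ℚ K) := by
  classical
  set τ := finrank ℚ K * (4 * finrank K L ^ 2) with hτ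
  have hSf : {c ∈ Bx K n B | Cn Bad (evB K β c) q}.Finite :=
    (bx_finite n B).subset fun c hc => hc.1
  have hBf := bx_finite (K := K) n (B + 2 * sz (1 : 𝓞 K) * q)
  have hS : ∀ c, c ∈ hSf.toFinset ↔ c ∈ Bx K n B ∧ Cn Bad (evB K β c) q := fun c => by
    rw [Set.Finite.mem_toFinset]
    rfl
  have h1 := dcount hSf.toFinset hBf.toFinset (range q ×ˢ range q) (sh K i0 i1)
    (∏ p ∈ q.primeFactors, τ * p ^ q.factorization p) (by
      intro c hc m hm
      rw [Set.Finite.mem_toFinset]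
      exact sh_mem ((hS c).1 hc).1 hm) (by
      intro Q _
      refine le_trans (Finset.card_le_card ?_) (crt hq (fun p m => ∃ t : Ideal (𝓞 L),
        TT Bad p (q.factorization p) t ∧ evB K β Q + ((m.1 : 𝓞 L) * β i0 +
          (m.2 : 𝓞 L) * β i1) ∈ t) _ ?_ ?_)
      · intro m hm
        rw [mem_filter] at hm ⊢
        refine ⟨hm.1, ?_⟩
        have h2 := ((hS _).1 hm.2).2
        intro p hp
        obtain ⟨t, ht, h3⟩ := h2 p hp
        rw [ev_sh] at h3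
        exact ⟨t, ht, h3⟩
      · rintro p hp m ⟨t, ht, h3⟩
        refine ⟨t, ht, ?_⟩
        have h4 := TT_pow ht
        have e : ∀ x : ℕ, (((x % p ^ q.factorization p : ℕ)) : 𝓞 L) =
            (x : 𝓞 L) - (p : 𝓞 L) ^ q.factorization p * ((x / p ^ q.factorization p : ℕ) : 𝓞 L) := by
          intro x
          have := Nat.div_add_mod x (p ^ q.factorization p)
          have h5 := congrArg (fun z : ℕ => (z : 𝓞 L)) this
          push_cast at h5
          rw [← h5]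
          ring
        simp only
        rw [e, e]
        have h6 : evB K β Q + (((m.1 : 𝓞 L) - (p : 𝓞 L) ^ q.factorization p *
            ((m.1 / p ^ q.factorization p : ℕ) : 𝓞 L)) * β i0 +
            ((m.2 : 𝓞 L) - (p : 𝓞 L) ^ q.factorization p *
            ((m.2 / p ^ q.factorization p : ℕ) : 𝓞 L)) * β i1) =
            (evB K β Q + ((m.1 : 𝓞 L) * β i0 +
              (m.2 : 𝓞 L) * β i1)) -
            (((m.1 / p ^ q.factorization p : ℕ) : 𝓞 L) * β i0 +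
              ((m.2 / p ^ q.factorization p : ℕ) : 𝓞 L) * β i1) *
              (p : 𝓞 L) ^ q.factorization p := by ring
        rw [h6]
        exact t.sub_mem h3 (t.mul_mem_left _ h4)
      · intro p hp
        have hpp := Nat.prime_of_mem_primeFactors hp
        obtain ⟨f1, f2⟩ := TT_card hG (q.factorization p) hpp
        have hle : (((range (p ^ q.factorization p) ×ˢ range (p ^ q.factorization p))).filter
            fun m : ℕ × ℕ => ∃ t : Ideal (𝓞 L), TT Bad p (q.factorization p) t ∧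
              evB K β Q + ((m.1 : 𝓞 L) * β i0 +
              (m.2 : 𝓞 L) * β i1) ∈ t) ⊆ f1.toFinset.biUnion fun t =>
            ((range (p ^ q.factorization p) ×ˢ range (p ^ q.factorization p))).filter
              fun m : ℕ × ℕ => evB K β Q + ((m.1 : 𝓞 L) * β i0 +
              (m.2 : 𝓞 L) * β i1) ∈ t := by
          intro m hm
          rw [mem_filter] at hm
          obtain ⟨h7, t, ht, h8⟩ := hm
          rw [Finset.mem_biUnion]
          refine ⟨t, ?_, ?_⟩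
          · rw [Set.Finite.mem_toFinset]
            exact ht
          · rw [mem_filter]
            exact ⟨h7, h8⟩
        refine (Finset.card_le_card hle).trans ?_
        refine Finset.card_biUnion_le.trans ?_
        calc _ ≤ ∑ t ∈ f1.toFinset, p ^ q.factorization p := by
              refine Finset.sum_le_sum fun t ht => ?_
              rw [Set.Finite.mem_toFinset] at ht
              exact TT_count hG hpp ht _
          _ = f1.toFinset.card * p ^ q.factorization p := by rw [sum_const, smul_eq_mul]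
          _ ≤ τ * p ^ q.factorization p := by
              refine Nat.mul_le_mul_right _ ?_
              rw [← Set.ncard_eq_toFinset_card _ f1]
              exact f2)
  rw [card_product, card_range, Finset.prod_mul_distrib, Finset.prod_const,
    ← Set.ncard_eq_toFinset_card _ hSf, ← Set.ncard_eq_toFinset_card _ hBf] at h1
  have h2 : ∏ p ∈ q.primeFactors, p ^ q.factorization p = q := by
    conv_rhs => rw [← Nat.prod_factorization_pow_eq_self hq]
    rw [Finsupp.prod, Nat.support_factorization]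
  rw [h2] at h1
  have h3 := bx_card (K := K) n (B + 2 * sz (1 : 𝓞 K) * q)
  have hq0 : 0 < q := Nat.pos_of_ne_zero hq
  refine Nat.le_of_mul_le_mul_right ?_ hq0
  calc _ = {c ∈ Bx K n B | Cn Bad (evB K β c) q}.ncard * (q * q) := by ring
    _ ≤ _ := h1
    _ ≤ τ ^ q.primeFactors.card * q *
        (2 * (B + 2 * sz (1 : 𝓞 K) * q) + 1) ^ (n * finrank ℚ K) := Nat.mul_le_mul_left _ h3
    _ = _ := by ring

end loc



theorem t (h : StmTypB) : StmSmallB := by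
  intro K L _ _ _ _ _ n β i0 i1 h0 hadj
  obtain ⟨Bad, hBad⟩ := h K L n β i0 i1 h0 hadj
  have hG : ∀ v ∉ Bad, GoodB (β i0) (β i1) v := fun v hv =>
    ⟨(hBad v hv).1, (hBad v hv).2.1, (hBad v hv).2.2.1, (hBad v hv).2.2.2.1,
      (hBad v hv).2.2.2.2.2.2⟩
  refine ⟨Bad, fun κ hκ => ?_⟩
  classical
  set N : ℕ := n * finrank ℚ K with hN
  set τ : ℕ := finrank ℚ K * (4 * finrank K L ^ 2) with hτ
  set C1 : ℕ := 2 * sz (1 : 𝓞 K) with hC1
  have hnL : (0 : ℝ) < finrank ℚ L := by exact_mod_cast finrank_pos (R := ℚ) (M := L)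
  obtain ⟨Cτ, hCτ, hτb⟩ := tau_bound (τ := τ + 1) (by omega)
  obtain ⟨Cs, hCs, hsb⟩ := sum_bound
  obtain ⟨κ1, hκ1⟩ : ∃ κ1 : ℝ, κ1 = min (κ / finrank ℚ L) 1 / 2 := ⟨_, rfl⟩
  have hκ1pos : 0 < κ1 := by
    rw [hκ1]
    have : 0 < min (κ / finrank ℚ L) 1 := lt_min (div_pos hκ hnL) one_pos
    linarith
  have hκ1a : κ1 ≤ κ / finrank ℚ L := by
    rw [hκ1]
    have h1 : min (κ / finrank ℚ L) 1 ≤ κ / finrank ℚ L := min_le_left _ _
    have h2 : 0 < κ / finrank ℚ L := div_pos hκ hnL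
    linarith
  have hκ1b : κ1 ≤ 1 / 2 := by
    rw [hκ1]
    have h1 : min (κ / finrank ℚ L) 1 ≤ 1 := min_le_right _ _
    linarith
  refine ⟨1 / 4, κ1 / 8, Cτ * (3 + 2 * C1) ^ N * Cs, by norm_num, by positivity, ?_⟩
  intro B hB
  have hBR : (1 : ℝ) ≤ B := by exact_mod_cast hB
  have hBpos : (0 : ℝ) < B := by linarith
  obtain ⟨X, hX⟩ : ∃ X : ℝ, X = (B : ℝ) ^ κ1 := ⟨_, rfl⟩
  have hX1 : 1 ≤ X := by rw [hX]; exact Real.one_le_rpow hBR hκ1pos.le
  obtain ⟨y, hy⟩ : ∃ y : ℝ, y = (B : ℝ) ^ (1 / 4 : ℝ) := ⟨_, rfl⟩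
  have hy1 : 1 ≤ y := by rw [hy]; exact Real.one_le_rpow hBR (by norm_num)
  have hXy : X * y ^ 2 ≤ B := by
    rw [hX, hy, ← Real.rpow_natCast, ← Real.rpow_mul hBpos.le, ← Real.rpow_add hBpos]
    calc (B : ℝ) ^ (κ1 + 1 / 4 * ((2 : ℕ) : ℝ)) ≤ (B : ℝ) ^ (1 : ℝ) := by
          refine Real.rpow_le_rpow_of_exponent_le hBR ?_
          push_cast
          linarith
      _ = B := Real.rpow_one _
  rw [← hy]
  set F := (Icc 1 B ×ˢ Icc 1 B).filter (fun z : ℕ × ℕ => X ≤ ((z.1 ^ 2 * z.2 ^ 3 : ℕ) : ℝ)) with hF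
  set F' := F.filter fun z : ℕ × ℕ => z.1 ^ 2 * z.2 ^ 3 ≤ B with hF'
  have hsub : {c ∈ Bx K n B | ∃ W : Finset (HeightOneSpectrum (𝓞 L)),
      (∀ w ∈ W, ∃ v ∉ Bad, w.asIdeal.LiesOver v.asIdeal ∧
        (Ideal.absNorm v.asIdeal : ℝ) ≤ y ∧ NSB β c v) ∧
      ∃ e : HeightOneSpectrum (𝓞 L) → ℕ, (∀ w ∈ W, evB K β c ∈ w.asIdeal ^ e w) ∧
        κ * Real.log B ≤ ∑ w ∈ W, e w * lN w} ⊆
      ⋃ z ∈ F', {c ∈ Bx K n B | Cn Bad (evB K β c) (z.1 ^ 2 * z.2 ^ 3)} := by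
    rintro c ⟨hc, W, hW, e, he, hsum⟩
    obtain ⟨Q, hQ, hQs⟩ := adm_exists W e hW he
    have hQ0 : (0 : ℝ) < Q := by exact_mod_cast Nat.pos_of_ne_zero hQ.1
    have hQX : X ≤ Q := by
      rw [hX, Real.rpow_def_of_pos hBpos]
      rw [← Real.le_log_iff_exp_le hQ0]
      have h1 : κ * Real.log B ≤ finrank ℚ L * Real.log Q := hsum.trans hQs
      have h2 : κ / finrank ℚ L * Real.log B ≤ Real.log Q := by
        rw [div_mul_eq_mul_div, div_le_iff₀ hnL, mul_comm (Real.log (Q : ℝ))]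
        exact h1
      have h3 : κ1 * Real.log B ≤ κ / finrank ℚ L * Real.log B :=
        mul_le_mul_of_nonneg_right hκ1a (Real.log_nonneg hBR)
      linarith
    obtain ⟨q, hq, hqX, hqB⟩ := descend (Adm Bad (evB K β c) y) hy1 hX1
      (fun q hq hq1 => adm_step hy1 hq hq1) (fun q hq => hq.1) Q hQ hQX
    obtain ⟨x, x', hxx⟩ := pow_rep hq.1 fun p hp => (hq.2 p hp).2.1
    have hqB' : q ≤ B := by exact_mod_cast hqB.trans hXy
    have hx0 : x ≠ 0 := by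
      rintro rfl
      exact hq.1 (by rw [hxx]; simp)
    have hx0' : x' ≠ 0 := by
      rintro rfl
      exact hq.1 (by rw [hxx]; simp)
    have hx1 : 1 ≤ x := Nat.pos_of_ne_zero hx0
    have hx1' : 1 ≤ x' := Nat.pos_of_ne_zero hx0'
    have hxB : x ≤ B := by
      calc x ≤ x ^ 2 := Nat.le_self_pow two_ne_zero x
        _ ≤ x ^ 2 * x' ^ 3 := Nat.le_mul_of_pos_right _ (by positivity)
        _ = q := hxx.symm
        _ ≤ B := hqB'
    have hxB' : x' ≤ B := by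
      calc x' ≤ x' ^ 3 := Nat.le_self_pow three_ne_zero x'
        _ ≤ x ^ 2 * x' ^ 3 := Nat.le_mul_of_pos_left _ (by positivity)
        _ = q := hxx.symm
        _ ≤ B := hqB'
    refine Set.mem_biUnion (x := (x, x')) ?_ ⟨hc, ?_⟩
    · rw [hF', hF, mem_coe, mem_filter, mem_filter, mem_product, mem_Icc, mem_Icc]
      simp only
      rw [← hxx]
      exact ⟨⟨⟨⟨hx1, hxB⟩, hx1', hxB'⟩, hqX⟩, hqB'⟩
    · simp only
      rw [← hxx]
      exact fun p hp => (hq.2 p hp).2.2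
  have hUf : (⋃ z ∈ F', {c ∈ Bx K n B | Cn Bad (evB K β c) (z.1 ^ 2 * z.2 ^ 3)}).Finite := by
    refine (bx_finite n B).subset ?_
    intro c hc
    simp only [Set.mem_iUnion] at hc
    obtain ⟨z, -, hz⟩ := hc
    exact hz.1
  have h1 : ({c ∈ Bx K n B | ∃ W : Finset (HeightOneSpectrum (𝓞 L)),
      (∀ w ∈ W, ∃ v ∉ Bad, w.asIdeal.LiesOver v.asIdeal ∧
        (Ideal.absNorm v.asIdeal : ℝ) ≤ y ∧ NSB β c v) ∧
      ∃ e : HeightOneSpectrum (𝓞 L) → ℕ, (∀ w ∈ W, evB K β c ∈ w.asIdeal ^ e w) ∧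
        κ * Real.log B ≤ ∑ w ∈ W, e w * lN w}.ncard : ℝ) ≤
      ∑ z ∈ F', ({c ∈ Bx K n B | Cn Bad (evB K β c) (z.1 ^ 2 * z.2 ^ 3)}.ncard : ℝ) := by
    have h2 := (Set.ncard_le_ncard hsub hUf).trans (Finset.set_ncard_biUnion_le F' _)
    exact_mod_cast h2
  refine h1.trans ?_
  have h3 : ∀ z ∈ F', ({c ∈ Bx K n B | Cn Bad (evB K β c) (z.1 ^ 2 * z.2 ^ 3)}.ncard : ℝ) ≤
      Cτ * (3 + 2 * C1) ^ N * (B : ℝ) ^ N * ((z.1 ^ 2 * z.2 ^ 3 : ℕ) : ℝ) ^ (-(7 / 8) : ℝ) := by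
    intro z hz
    rw [hF', mem_filter, hF, mem_filter, mem_product, mem_Icc, mem_Icc] at hz
    obtain ⟨⟨⟨⟨hz1, -⟩, hz2, -⟩, -⟩, hzB⟩ := hz
    have hq0 : z.1 ^ 2 * z.2 ^ 3 ≠ 0 := by positivity
    generalize z.1 ^ 2 * z.2 ^ 3 = q at hzB hq0 ⊢
    have h4 := count_q hG hq0 B
    have h5 : ({c ∈ Bx K n B | Cn Bad (evB K β c) q}.ncard : ℝ) * q ≤
        (τ : ℝ) ^ q.primeFactors.card * (2 * (B + C1 * q) + 1) ^ N := by
      exact_mod_cast h4
    have hqR : (0 : ℝ) < q := by exact_mod_cast Nat.pos_of_ne_zero hq0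
    have hqB : (q : ℝ) ≤ B := by exact_mod_cast hzB
    have h6 : (τ : ℝ) ^ q.primeFactors.card ≤ Cτ * (q : ℝ) ^ (1 / 8 : ℝ) := by
      refine le_trans ?_ (hτb q hq0)
      refine pow_le_pow_left₀ (Nat.cast_nonneg _) ?_ _
      push_cast
      linarith
    have h7 : (2 * ((B : ℝ) + C1 * q) + 1) ^ N ≤ ((3 + 2 * C1) * (B : ℝ)) ^ N := by
      refine pow_le_pow_left₀ (by positivity) ?_ _
      have : (C1 : ℝ) * q ≤ C1 * B := mul_le_mul_of_nonneg_left hqB (Nat.cast_nonneg _)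
      nlinarith
    have h8 : ({c ∈ Bx K n B | Cn Bad (evB K β c) q}.ncard : ℝ) * q ≤
        (Cτ * (q : ℝ) ^ (1 / 8 : ℝ)) * ((3 + 2 * C1) * (B : ℝ)) ^ N :=
      h5.trans (mul_le_mul h6 h7 (by positivity) (by positivity))
    rw [← le_div_iff₀ hqR] at h8
    refine h8.trans (le_of_eq ?_)
    have h9 : (q : ℝ) ^ (-(7 / 8) : ℝ) = (q : ℝ) ^ (1 / 8 : ℝ) / q := by
      rw [show (-(7 / 8) : ℝ) = 1 / 8 - 1 by norm_num, Real.rpow_sub_one hqR.ne']
    rw [h9, mul_pow]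
    ring
  refine (Finset.sum_le_sum h3).trans ?_
  rw [← Finset.mul_sum]
  have h10 : ∑ z ∈ F', ((z.1 ^ 2 * z.2 ^ 3 : ℕ) : ℝ) ^ (-(7 / 8) : ℝ) ≤
      Cs * X ^ (-(1 / 8) : ℝ) := by
    refine le_trans ?_ (hsb B X hX1)
    exact Finset.sum_le_sum_of_subset_of_nonneg (Finset.filter_subset _ _)
      (fun _ _ _ => by positivity)
  have h11 : X ^ (-(1 / 8) : ℝ) = (B : ℝ) ^ (-(κ1 / 8)) := by
    rw [hX, ← Real.rpow_mul hBpos.le]
    congr 1
    ring
  rw [h11] at h10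
  refine (mul_le_mul_of_nonneg_left h10 (by positivity)).trans (le_of_eq ?_)
  have h12 : (B : ℝ) ^ ((finrank ℚ K : ℝ) * n - κ1 / 8) =
      (B : ℝ) ^ N * (B : ℝ) ^ (-(κ1 / 8)) := by
    rw [sub_eq_add_neg, Real.rpow_add hBpos]
    congr 1
    rw [hN, ← Real.rpow_natCast]
    congr 1
    push_cast
    ring
  rw [h12]
  ring

end Pool.Agent.N966.CV.SmallB

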